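import Pool.Agent.K1H88.WS.Final

set_option autoImplicit false

/-! Exceptions with a large prime factor: the counts of the cases. -/

namespace Pool.Agent.K1H51.SQ

open Finset Real Pool.Agent.W57.SW Pool.Agent.K1H88.WS

/-- numbers `1 + L k`, `k ≥ 1`, up to `X` -/
lemma card_ap1 {S : Finset ℕ} {L : ℕ} {X : ℝ} (hL : 0 < L) (hX : 0 ≤ X)
    (hS : ∀ p ∈ S, 2 ≤ p ∧ L ∣ p - 1 ∧ (p : ℝ) ≤ X) : (S.card : ℝ) ≤ X / L := by
  have hL' : (0 : ℝ) < L := by exact_mod_cast hL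
  have h1 : S.card ≤ (Icc 1 ⌊X / L⌋₊).card := by
    apply card_le_card_of_injOn (fun p => (p - 1) / L)
    · intro p hp
      obtain ⟨a1, ⟨k, hk⟩, a3⟩ := hS p hp
      have e1 : (p - 1) / L = k := by rw [hk, Nat.mul_div_cancel_left _ hL]
      simp only [coe_Icc, Set.mem_Icc, e1]
      constructor
      · rcases Nat.eq_zero_or_pos k with h | h
        · rw [h, mul_zero] at hk; omega
        · exact h
      · apply Nat.le_floor
        rw [le_div_iff₀ hL']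
        have : ((k * L : ℕ) : ℝ) ≤ (p : ℝ) := by
          exact_mod_cast (by rw [mul_comm, ← hk]; omega : k * L ≤ p)
        push_cast at this
        linarith
    · intro p hp q hq hpq
      obtain ⟨a1, ⟨k, hk⟩, a3⟩ := hS p hp
      obtain ⟨b1, ⟨m, hm⟩, b3⟩ := hS q hq
      have e1 : (p - 1) / L = k := by rw [hk, Nat.mul_div_cancel_left _ hL]
      have e2 : (q - 1) / L = m := by rw [hm, Nat.mul_div_cancel_left _ hL]
      simp only [e1, e2] at hpq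
      subst hpq
      omega
  rw [Nat.card_Icc, Nat.add_sub_cancel] at h1
  calc (S.card : ℝ) ≤ (⌊X / L⌋₊ : ℝ) := by exact_mod_cast h1
    _ ≤ X / L := Nat.floor_le (by positivity)

/-- one prime factor is large -/
theorem caseA (e : ℝ) (he : 0 < e) : ∃ C : ℝ, 0 < C ∧ ∀ x : ℕ, 1 ≤ x → ∀ A : Finset ℕ,
    (∀ n ∈ A, ∃ p q : ℕ, n = p * q ∧ n ≤ x ∧ 2 ≤ p ∧ q.Prime ∧ Nz x q ∧ Lam x q ∣ p - 1 ∧
      (x : ℝ) ^ (18 / 35 : ℝ) ≤ q) →
    (A.card : ℝ) ≤ C * (x : ℝ) ^ (17 / 35 + e : ℝ) := by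
  classical
  obtain ⟨C, hC, hsum⟩ := inv_lam_sum e he
  refine ⟨C, hC, fun x hx A hA => ?_⟩
  have hx1' : (1 : ℝ) ≤ x := by exact_mod_cast hx
  have hx0 : (0 : ℝ) < x := by linarith
  let K : Finset ℕ := (Icc 1 x).filter (fun q => q.Prime ∧ Nz x q ∧ (x : ℝ) ^ (18 / 35 : ℝ) ≤ q)
  let F : ℕ → Finset ℕ := fun q => (Icc 2 x).filter (fun p => Lam x q ∣ p - 1 ∧ p * q ≤ x)
  have h1 := count_img K A F (fun q p => p * q) (fun q => 1 / ((Lam x q : ℕ) : ℝ))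
    ((x : ℝ) ^ (17 / 35 : ℝ)) (by
      intro n hn
      obtain ⟨p, q, h1, h2, h3, h4, h5, h6, h7⟩ := hA n hn
      have hp2 := h3
      have hq2 := h4.two_le
      have hqx : q ≤ x := by
        calc q ≤ p * q := Nat.le_mul_of_pos_left _ (by omega)
          _ ≤ x := by rw [← h1]; exact h2
      have hpx : p ≤ x := by
        calc p ≤ p * q := Nat.le_mul_of_pos_right _ (by omega)
          _ ≤ x := by rw [← h1]; exact h2
      exact ⟨q, mem_filter.2 ⟨mem_Icc.2 ⟨by omega, hqx⟩, h4, h5, h7⟩, p,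
        mem_filter.2 ⟨mem_Icc.2 ⟨hp2, hpx⟩, h6, by rw [← h1]; exact h2⟩, h1⟩) (by
      intro q hq
      obtain ⟨hq1, hq2, hq3, hq4⟩ := mem_filter.1 hq
      have hL := lam_pos hq2 hq3
      have hq0 : (0 : ℝ) < q := by exact_mod_cast hq2.pos
      have h2 := card_ap1 (S := F q) (X := (x : ℝ) / q) hL (by positivity) (by
        intro p hp
        obtain ⟨a1, a2, a3⟩ := mem_filter.1 hp
        refine ⟨(mem_Icc.1 a1).1, a2, ?_⟩
        rw [le_div_iff₀ hq0]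
        exact_mod_cast a3)
      refine h2.trans ?_
      rw [← div_eq_mul_one_div]
      apply div_le_div_of_nonneg_right _ (Nat.cast_nonneg _)
      rw [div_le_iff₀ hq0]
      calc (x : ℝ) = (x : ℝ) ^ (17 / 35 : ℝ) * (x : ℝ) ^ (18 / 35 : ℝ) := by
            rw [← rpow_add hx0]; norm_num
        _ ≤ _ := mul_le_mul_of_nonneg_left hq4 (by positivity))
  have h2 := hsum x hx K (fun p hp => by
    obtain ⟨hq1, hq2, hq3, hq4⟩ := mem_filter.1 hp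
    exact ⟨hq2, (mem_Icc.1 hq1).2, hq3⟩)
  calc (A.card : ℝ) ≤ _ := h1
    _ ≤ (x : ℝ) ^ (17 / 35 : ℝ) * (C * (x : ℝ) ^ e) := mul_le_mul_of_nonneg_left h2 (by positivity)
    _ = C * ((x : ℝ) ^ (17 / 35 : ℝ) * (x : ℝ) ^ e) := by ring
    _ = _ := by rw [← rpow_add hx0]

/-- one prime factor has a small exponent, the other one has the same symbols or all symbols one -/
theorem caseF (e : ℝ) (he : 0 < e) (he4 : e ≤ 1 / 4) : ∃ C : ℝ, 0 < C ∧ ∀ x : ℕ, 1 ≤ x →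
    ∀ (Y : ℕ) (t : ℝ), Y ≤ x → 0 ≤ t → ∀ A : Finset ℕ,
    (∀ n ∈ A, ∃ p q : ℕ, n = p * q ∧ n ≤ x ∧ 2 ≤ p ∧ q.Prime ∧ Odd p ∧ Nz x p ∧ Nz x q ∧
      Lam x q ∣ p - 1 ∧ (Lam x q : ℝ) ≤ t ∧ p ≤ Y ∧ (Sy x p q ∨ Sy x p 1)) →
    (A.card : ℝ) ≤ C * (x : ℝ) ^ (2 * e) * ((Y : ℝ) ^ (4 / 5 : ℝ) * t ^ (1 / 5 : ℝ) + t) := by
  classical
  obtain ⟨C, hC, hsum⟩ := inv_lam_sum e he
  obtain ⟨C', hC', hap⟩ := ap_count e he he4
  refine ⟨2 * C' * C, by positivity, fun x hx Y t hY ht A hA => ?_⟩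
  have hx1' : (1 : ℝ) ≤ x := by exact_mod_cast hx
  have hx0 : (0 : ℝ) < x := by linarith
  let K : Finset ℕ := (Icc 1 x).filter (fun q => q.Prime ∧ Nz x q ∧ (Lam x q : ℝ) ≤ t)
  let F : ℕ → Finset ℕ := fun q => (Icc 1 Y).filter (fun p => Odd p ∧ p % Lam x q = 1 % Lam x q ∧
    Nz x p ∧ (Sy x p q ∨ Sy x p 1))
  have h1 := count_img K A F (fun q p => p * q) (fun q => 1 / ((Lam x q : ℕ) : ℝ))
    (2 * C' * (x : ℝ) ^ e * ((Y : ℝ) ^ (4 / 5 : ℝ) * t ^ (1 / 5 : ℝ) + t)) (by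
      intro n hn
      obtain ⟨p, q, h1, h2, h3, h4, h5, h6, h7, h8, h9, h10, h11⟩ := hA n hn
      have hp2 := h3
      have hq2 := h4.two_le
      have hqx : q ≤ x := by
        calc q ≤ p * q := Nat.le_mul_of_pos_left _ (by omega)
          _ ≤ x := by rw [← h1]; exact h2
      refine ⟨q, mem_filter.2 ⟨mem_Icc.2 ⟨by omega, hqx⟩, h4, h7, h9⟩, p,
        mem_filter.2 ⟨mem_Icc.2 ⟨by omega, h10⟩, h5, ?_, h6, h11⟩, h1⟩
      have := (Nat.modEq_iff_dvd' (by omega : 1 ≤ p)).2 h8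
      exact this.symm) (by
      intro q hq
      obtain ⟨hq1, hq2, hq3, hq4⟩ := mem_filter.1 hq
      have hL := lam_pos hq2 hq3
      have hL0 : (0 : ℝ) < (Lam x q : ℝ) := by exact_mod_cast hL
      have hLx : Lam x q ≤ x := by
        have := Nat.le_of_dvd (by have := hq2.two_le; omega) (lam_dvd_pred hq2 hq3)
        have := (mem_Icc.1 hq1).2
        omega
      have c1 := hap x x Y (Lam x q) 1 q le_rfl hY hL hLx ((F q).filter (fun p => Sy x p q)) (by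
        intro p hp
        obtain ⟨a1, a2⟩ := mem_filter.1 hp
        obtain ⟨b1, b2, b3, b4, b5⟩ := mem_filter.1 a1
        exact ⟨(mem_Icc.1 b1).1, (mem_Icc.1 b1).2, b2, b3, a2, b4⟩)
      have c2 := hap x x Y (Lam x q) 1 1 le_rfl hY hL hLx ((F q).filter (fun p => Sy x p 1)) (by
        intro p hp
        obtain ⟨a1, a2⟩ := mem_filter.1 hp
        obtain ⟨b1, b2, b3, b4, b5⟩ := mem_filter.1 a1
        exact ⟨(mem_Icc.1 b1).1, (mem_Icc.1 b1).2, b2, b3, a2, b4⟩)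
      have c3 : F q ⊆ (F q).filter (fun p => Sy x p q) ∪ (F q).filter (fun p => Sy x p 1) := by
        intro p hp
        rw [mem_union]
        obtain ⟨b1, b2, b3, b4, b5⟩ := mem_filter.1 hp
        rcases b5 with b5 | b5
        · exact Or.inl (mem_filter.2 ⟨hp, b5⟩)
        · exact Or.inr (mem_filter.2 ⟨hp, b5⟩)
      have c4 := (card_le_card c3).trans (card_union_le _ _)
      have c5 : ((F q).card : ℝ) ≤ (((F q).filter (fun p => Sy x p q)).card : ℝ) +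
        (((F q).filter (fun p => Sy x p 1)).card : ℝ) := by exact_mod_cast c4
      have c6 : ((Y : ℝ) / Lam x q) ^ (4 / 5 : ℝ) ≤
          (Y : ℝ) ^ (4 / 5 : ℝ) * t ^ (1 / 5 : ℝ) * (1 / (Lam x q : ℝ)) := by
        rw [div_rpow (Nat.cast_nonneg _) hL0.le]
        have i1 : (Lam x q : ℝ) = (Lam x q : ℝ) ^ (4 / 5 : ℝ) * (Lam x q : ℝ) ^ (1 / 5 : ℝ) := by
          rw [← rpow_add hL0]; norm_num
        have i2 : (Lam x q : ℝ) ^ (1 / 5 : ℝ) ≤ t ^ (1 / 5 : ℝ) :=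
          rpow_le_rpow hL0.le hq4 (by norm_num)
        have i3 : 0 < (Lam x q : ℝ) ^ (4 / 5 : ℝ) := rpow_pos_of_pos hL0 _
        have i4 : 0 < (Lam x q : ℝ) ^ (1 / 5 : ℝ) := rpow_pos_of_pos hL0 _
        rw [mul_one_div, div_le_div_iff₀ i3 hL0]
        calc (Y : ℝ) ^ (4 / 5 : ℝ) * (Lam x q : ℝ) =
            (Y : ℝ) ^ (4 / 5 : ℝ) * ((Lam x q : ℝ) ^ (4 / 5 : ℝ) * (Lam x q : ℝ) ^ (1 / 5 : ℝ)) := by
              rw [← i1]
          _ ≤ (Y : ℝ) ^ (4 / 5 : ℝ) * ((Lam x q : ℝ) ^ (4 / 5 : ℝ) * t ^ (1 / 5 : ℝ)) := by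
              gcongr
          _ = _ := by ring
      have c7 : (1 : ℝ) ≤ t * (1 / (Lam x q : ℝ)) := by
        rw [mul_one_div, le_div_iff₀ hL0]; linarith
      have c8 : 0 < C' * (x : ℝ) ^ e := by positivity
      calc ((F q).card : ℝ) ≤ 2 * (C' * (x : ℝ) ^ e * (((Y : ℝ) / Lam x q) ^ (4 / 5 : ℝ) + 1)) := by
            linarith
        _ ≤ 2 * (C' * (x : ℝ) ^ e * ((Y : ℝ) ^ (4 / 5 : ℝ) * t ^ (1 / 5 : ℝ) *
            (1 / (Lam x q : ℝ)) + t * (1 / (Lam x q : ℝ)))) := by gcongr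
        _ = _ := by ring)
  have h2 := hsum x hx K (fun p hp => by
    obtain ⟨hq1, hq2, hq3, hq4⟩ := mem_filter.1 hp
    exact ⟨hq2, (mem_Icc.1 hq1).2, hq3⟩)
  have hpos : 0 ≤ (Y : ℝ) ^ (4 / 5 : ℝ) * t ^ (1 / 5 : ℝ) + t := by positivity
  calc (A.card : ℝ) ≤ _ := h1
    _ ≤ (2 * C' * (x : ℝ) ^ e * ((Y : ℝ) ^ (4 / 5 : ℝ) * t ^ (1 / 5 : ℝ) + t)) *
        (C * (x : ℝ) ^ e) := mul_le_mul_of_nonneg_left h2 (by positivity)
    _ = 2 * C' * C * ((x : ℝ) ^ e * (x : ℝ) ^ e) *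
        ((Y : ℝ) ^ (4 / 5 : ℝ) * t ^ (1 / 5 : ℝ) + t) := by ring
    _ = _ := by rw [← rpow_add hx0, ← two_mul]

end Pool.Agent.K1H51.SQ
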