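import Pool.Agent.K1H51.SQ.Cases

set_option autoImplicit false

/-! Exceptions with a large prime factor: further cases. -/

namespace Pool.Agent.K1H51.SQ

open Finset Real Pool.Agent.W57.SW Pool.Agent.K1H88.WS

/-- the sum of `1 / (a b)` -/
lemma sum_inv_pairs (e : ℝ) (he : 0 < e) : ∃ C : ℝ, 0 < C ∧ ∀ x : ℕ, 1 ≤ x →
    ∀ K : Finset (ℕ × ℕ), (∀ k ∈ K, (1 ≤ k.1 ∧ k.1 ≤ x) ∧ 1 ≤ k.2 ∧ k.2 ≤ x) →
    ∑ k ∈ K, 1 / ((k.1 : ℝ) * k.2) ≤ C * (x : ℝ) ^ e := by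
  refine ⟨(1 + 2 / e) ^ 2, by positivity, fun x hx K hK => ?_⟩
  have hx1' : (1 : ℝ) ≤ x := by exact_mod_cast hx
  have hx0 : (0 : ℝ) < x := by linarith
  have h1 : ∑ k ∈ K, 1 / ((k.1 : ℝ) * k.2) ≤
      ∑ k ∈ Icc 1 x ×ˢ Icc 1 x, 1 / ((k.1 : ℝ) * k.2) := by
    apply sum_le_sum_of_subset_of_nonneg
    · intro k hk
      obtain ⟨⟨a1, a2⟩, a3, a4⟩ := hK k hk
      rw [mem_product, mem_Icc, mem_Icc]
      exact ⟨⟨a1, a2⟩, a3, a4⟩
    · intros; positivity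
  have h2 : ∑ k ∈ Icc 1 x ×ˢ Icc 1 x, 1 / ((k.1 : ℝ) * k.2) =
      (∑ a ∈ Icc 1 x, 1 / (a : ℝ)) ^ 2 := by
    rw [sq, sum_mul_sum, sum_product]
    refine sum_congr rfl fun a _ => sum_congr rfl fun b _ => ?_
    rw [one_div_mul_one_div]
  have h3 : ∑ a ∈ Icc 1 x, 1 / (a : ℝ) ≤ 1 + log x := by
    have := harmonic_le_one_add_log x
    rw [harmonic_eq_sum_Icc] at this
    push_cast at this
    simpa [one_div] using this
  have h4 : log (x : ℝ) ≤ (x : ℝ) ^ (e / 2) / (e / 2) := log_le_rpow_div hx0.le (by positivity)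
  have h5 : (1 : ℝ) ≤ (x : ℝ) ^ (e / 2) := one_le_rpow hx1' (by positivity)
  have h6 : (x : ℝ) ^ (e / 2) / (e / 2) = 2 / e * (x : ℝ) ^ (e / 2) := by
    field_simp
  have h7 : ∑ a ∈ Icc 1 x, 1 / (a : ℝ) ≤ (1 + 2 / e) * (x : ℝ) ^ (e / 2) := by
    rw [h6] at h4
    linarith
  calc _ ≤ (∑ a ∈ Icc 1 x, 1 / (a : ℝ)) ^ 2 := by rw [← h2]; exact h1
    _ ≤ ((1 + 2 / e) * (x : ℝ) ^ (e / 2)) ^ 2 := by
        apply pow_le_pow_left₀ _ h7
        positivity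
    _ = (1 + 2 / e) ^ 2 * ((x : ℝ) ^ (e / 2) * (x : ℝ) ^ (e / 2)) := by ring
    _ = _ := by rw [← rpow_add hx0, add_halves]

/-- the prime and the cofactor are `1` modulo a large number -/
theorem caseQ (e : ℝ) (he : 0 < e) (he4 : e ≤ 1 / 4) : ∃ C : ℝ, 0 < C ∧ ∀ x : ℕ, 1 ≤ x →
    ∀ A : Finset ℕ,
    (∀ n ∈ A, ∃ p q L : ℕ, n = p * q ∧ n ≤ x ∧ 2 ≤ p ∧ q.Prime ∧ p ≠ q ∧ Odd p ∧ q ≠ 2 ∧
      (Nz x p ∧ Nz x q) ∧ L ∣ p - 1 ∧ L ∣ q - 1 ∧ (x : ℝ) ^ (3 / 7 : ℝ) ≤ L ∧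
      (Sy x p q ∨ Sy x p 1)) →
    (A.card : ℝ) ≤ C * (x : ℝ) ^ (17 / 35 + 2 * e : ℝ) := by
  classical
  obtain ⟨C, hC, hq⟩ := quad_count e he he4
  obtain ⟨C1, hC1, hap⟩ := ap_count e he he4
  obtain ⟨C', hC', hsum⟩ := sum_inv_pairs e he
  refine ⟨(2 * C + 3 * C1) * C', by positivity, fun x hx A hA => ?_⟩
  have hx1' : (1 : ℝ) ≤ x := by exact_mod_cast hx
  have hx0 : (0 : ℝ) < x := by linarith
  let K : Finset (ℕ × ℕ) := (Icc 1 x ×ˢ Icc 1 x).filter (fun k => k.1 ≠ k.2 ∧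
    (k.1 : ℝ) * k.2 ≤ (x : ℝ) ^ (1 / 7 : ℝ))
  let F1 : ℕ × ℕ → Finset ℕ := fun k => (Icc 1 x).filter (fun g =>
    g ≤ ⌊((x : ℝ) / (k.1 * k.2)) ^ (1 / 2 : ℝ)⌋₊ ∧ Odd (NN k.1 k.2 g) ∧
      ∀ ℓ ∈ Vs x, jacobiSym (ℓ : ℤ) (NN k.1 k.2 g) = 1)
  let F2 : ℕ × ℕ → Finset ℕ := fun k => (Icc 1 x).filter (fun g =>
    g ≤ ⌊((x : ℝ) / (k.1 * k.2)) ^ (1 / 2 : ℝ)⌋₊ ∧ 1 + g * k.1 ≤ x ∧ Odd (1 + g * k.1) ∧
      Sy x (1 + g * k.1) 1 ∧ Nz x (1 + g * k.1))
  let F : ℕ × ℕ → Finset ℕ := fun k => F1 k ∪ F2 k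
  have h1 := count_img K A F (fun k g => NN k.1 k.2 g) (fun k => 1 / ((k.1 : ℝ) * k.2))
    ((2 * C + 3 * C1) * (x : ℝ) ^ e * (x : ℝ) ^ (17 / 35 : ℝ)) (by
      intro n hn
      obtain ⟨p, q, L, h1, h2, h3, h4, h5, h6, h7, h8, h9, h10, h11, h12⟩ := hA n hn
      have hp2 := h3
      obtain ⟨h8', h8⟩ := h8
      have hq2 := h4.two_le
      obtain ⟨a, ha⟩ := h9
      obtain ⟨b, hb⟩ := h10
      have hpos : ∀ u v w : ℕ, 1 ≤ w → w = u * v → 1 ≤ u ∧ 1 ≤ v := by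
        intro u v w hw h
        constructor
        · rcases Nat.eq_zero_or_pos u with h0 | h0
          · rw [h0, zero_mul] at h; omega
          · exact h0
        · rcases Nat.eq_zero_or_pos v with h0 | h0
          · rw [h0, mul_zero] at h; omega
          · exact h0
      obtain ⟨hL1, ha1⟩ := hpos L a _ (by omega) ha
      obtain ⟨_, hb1⟩ := hpos L b _ (by omega) hb
      have hpe : p = 1 + L * a := by omega
      have hqe : q = 1 + L * b := by omega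
      have hab : a ≠ b := by
        intro h
        apply h5
        rw [hpe, hqe, h]
      have hn' : (1 + L * a) * (1 + L * b) ≤ x := by
        rw [← hpe, ← hqe, ← h1]; exact h2
      have hLab : L * L * (a * b) ≤ x := by nlinarith
      have hLx : L ≤ x := by nlinarith [Nat.mul_le_mul hL1 (Nat.mul_le_mul ha1 hb1)]
      have hax : a ≤ x := by nlinarith [Nat.mul_le_mul hL1 (Nat.mul_le_mul hL1 hb1)]
      have hbx : b ≤ x := by nlinarith [Nat.mul_le_mul hL1 (Nat.mul_le_mul hL1 ha1)]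
      have hL0 : (0 : ℝ) < L := by exact_mod_cast hL1
      have ha0 : (0 : ℝ) < a := by exact_mod_cast ha1
      have hb0 : (0 : ℝ) < b := by exact_mod_cast hb1
      have hLab' : (L : ℝ) * L * (a * b) ≤ x := by exact_mod_cast hLab
      refine ⟨⟨a, b⟩, ?_, L, ?_, ?_⟩
      · simp only [K, mem_filter, mem_product, mem_Icc]
        refine ⟨⟨⟨ha1, hax⟩, hb1, hbx⟩, hab, ?_⟩
        have i1 : (x : ℝ) ^ (3 / 7 : ℝ) * (x : ℝ) ^ (3 / 7 : ℝ) ≤ (L : ℝ) * L :=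
          mul_le_mul h11 h11 (by positivity) hL0.le
        rw [← rpow_add hx0] at i1
        have i2 : (x : ℝ) ^ (3 / 7 + 3 / 7 : ℝ) * ((a : ℝ) * b) ≤
            (x : ℝ) ^ (3 / 7 + 3 / 7 : ℝ) * (x : ℝ) ^ (1 / 7 : ℝ) := by
          rw [← rpow_add hx0]
          norm_num
          norm_num at i1
          exact (mul_le_mul_of_nonneg_right i1 (by positivity)).trans hLab'
        exact le_of_mul_le_mul_left i2 (by positivity)
      · have hfl : L ≤ ⌊((x : ℝ) / (a * b)) ^ (1 / 2 : ℝ)⌋₊ := by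
          apply Nat.le_floor
          have i1 : (L : ℝ) ^ (2 : ℝ) ≤ (x : ℝ) / (a * b) := by
            rw [le_div_iff₀ (by positivity), rpow_two, sq]
            exact hLab'
          have i2 := rpow_le_rpow (by positivity) i1 (show (0 : ℝ) ≤ 1 / 2 by norm_num)
          rw [← rpow_mul hL0.le] at i2
          norm_num at i2
          norm_num
          exact i2
        rcases h12 with h12 | h12
        · refine mem_union_left _ (mem_filter.2 ⟨mem_Icc.2 ⟨hL1, hLx⟩, hfl, ?_, ?_⟩)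
          · show Odd ((1 + L * a) * (1 + L * b))
            rw [← hpe, ← hqe]
            exact h6.mul (h4.odd_of_ne_two h7)
          intro ℓ hℓ
          show jacobiSym (ℓ : ℤ) ((1 + L * a) * (1 + L * b)) = 1
          rw [← hpe, ← hqe]
          have : NeZero p := ⟨by omega⟩
          have : NeZero q := ⟨by omega⟩
          rw [jacobiSym.mul_right, h12 ℓ hℓ]
          have hg : Int.gcd (ℓ : ℤ) q = 1 := by
            rw [Int.gcd_natCast_natCast]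
            exact (Nat.coprime_primes (mem_Vs.1 hℓ).1 h4).2 (by
              rintro rfl
              exact h8 ℓ hℓ dvd_rfl)
          rcases jacobiSym.eq_one_or_neg_one (a := (ℓ : ℤ)) (b := q) hg with h | h <;> rw [h] <;>
            norm_num
        · refine mem_union_right _ (mem_filter.2 ⟨mem_Icc.2 ⟨hL1, hLx⟩, hfl, ?_⟩)
          show 1 + L * a ≤ x ∧ Odd (1 + L * a) ∧ Sy x (1 + L * a) 1 ∧ Nz x (1 + L * a)
          rw [← hpe]
          refine ⟨?_, h6, h12, h8'⟩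
          calc p ≤ p * q := Nat.le_mul_of_pos_right _ (by omega)
            _ ≤ x := by rw [← h1]; exact h2
      · show n = (1 + L * a) * (1 + L * b)
        rw [← hpe, ← hqe]; exact h1) (by
      rintro ⟨a, b⟩ hk
      simp only [K, mem_filter, mem_product, mem_Icc] at hk
      obtain ⟨⟨⟨ha1, hax⟩, hb1, hbx⟩, hab, habx⟩ := hk
      have ha0 : (0 : ℝ) < a := by exact_mod_cast ha1
      have hb0 : (0 : ℝ) < b := by exact_mod_cast hb1
      have hab0 : (0 : ℝ) < (a : ℝ) * b := by positivity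
      have hab1 : (1 : ℝ) ≤ (a : ℝ) * b := by
        have : 1 ≤ a * b := Nat.mul_le_mul ha1 hb1
        exact_mod_cast this
      have habx1 : (a : ℝ) * b ≤ x := habx.trans (by
        calc (x : ℝ) ^ (1 / 7 : ℝ) ≤ (x : ℝ) ^ (1 : ℝ) :=
              rpow_le_rpow_of_exponent_le hx1' (by norm_num)
          _ = x := rpow_one _)
      obtain ⟨G, hG⟩ : ∃ G : ℕ, G = ⌊((x : ℝ) / (a * b)) ^ (1 / 2 : ℝ)⌋₊ := ⟨_, rfl⟩
      have hquo : 1 ≤ (x : ℝ) / (a * b) := by rw [le_div_iff₀ hab0]; linarith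
      have hG1 : (G : ℝ) ≤ ((x : ℝ) / (a * b)) ^ (1 / 2 : ℝ) := by
        rw [hG]; exact Nat.floor_le (by positivity)
      have hGx : G ≤ x := by
        have i1 : (G : ℝ) ≤ x := by
          calc (G : ℝ) ≤ ((x : ℝ) / (a * b)) ^ (1 / 2 : ℝ) := hG1
            _ ≤ ((x : ℝ) / (a * b)) ^ (1 : ℝ) := rpow_le_rpow_of_exponent_le hquo (by norm_num)
            _ = (x : ℝ) / (a * b) := rpow_one _
            _ ≤ x := div_le_self hx0.le hab1
        exact_mod_cast i1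
      have h2 := hq x G a b hx hGx ha1 hax hb1 hbx hab (F1 ⟨a, b⟩) (by
        intro g hg
        simp only [F1, mem_filter, mem_Icc] at hg
        rw [hG]
        exact hg.2)
      have h2' := hap x x (min (1 + G * a) x) a 1 1 le_rfl (min_le_right _ _) ha1 hax
        ((F2 ⟨a, b⟩).image (fun g => 1 + g * a)) (by
          intro n hn
          obtain ⟨g, hg, rfl⟩ := mem_image.1 hn
          simp only [F2, mem_filter, mem_Icc] at hg
          rw [← hG] at hg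
          obtain ⟨g1, g2, g3, g4, g5, g6⟩ := hg
          refine ⟨by omega, le_min ?_ g3, g4, ?_, g5, g6⟩
          · have := Nat.mul_le_mul_right a g2
            omega
          · rw [Nat.add_mul_mod_self_right])
      rw [card_image_of_injOn (by
        intro g _ g' _ hgg
        simp only at hgg
        have : g * a = g' * a := by omega
        exact Nat.eq_of_mul_eq_mul_right ha1 this)] at h2'
      have hG0 : 1 ≤ G := by
        rw [hG]; apply Nat.le_floor; rw [Nat.cast_one]; exact one_le_rpow hquo (by norm_num)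
      have hG0' : (1 : ℝ) ≤ G := by exact_mod_cast hG0
      have h3 : (G : ℝ) ^ (4 / 5 : ℝ) ≤ ((x : ℝ) / (a * b)) ^ (2 / 5 : ℝ) := by
        calc (G : ℝ) ^ (4 / 5 : ℝ) ≤ (((x : ℝ) / (a * b)) ^ (1 / 2 : ℝ)) ^ (4 / 5 : ℝ) :=
              rpow_le_rpow (Nat.cast_nonneg _) hG1 (by norm_num)
          _ = _ := by rw [← rpow_mul (by positivity)]; norm_num
      have h4 : (1 : ℝ) ≤ ((x : ℝ) / (a * b)) ^ (2 / 5 : ℝ) := one_le_rpow hquo (by norm_num)
      have h3' : (((min (1 + G * a) x : ℕ) : ℝ) / a) ^ (4 / 5 : ℝ) ≤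
          2 * ((x : ℝ) / (a * b)) ^ (2 / 5 : ℝ) := by
        have i1 : ((min (1 + G * a) x : ℕ) : ℝ) / a ≤ 2 * G := by
          rw [div_le_iff₀ ha0]
          have : ((min (1 + G * a) x : ℕ) : ℝ) ≤ ((1 + G * a : ℕ) : ℝ) := by
            exact_mod_cast min_le_left _ _
          push_cast at this
          have ha1' : (1 : ℝ) ≤ a := by exact_mod_cast ha1
          push_cast
          nlinarith
        calc (((min (1 + G * a) x : ℕ) : ℝ) / a) ^ (4 / 5 : ℝ) ≤ (2 * (G : ℝ)) ^ (4 / 5 : ℝ) :=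
              rpow_le_rpow (by positivity) i1 (by norm_num)
          _ = 2 ^ (4 / 5 : ℝ) * (G : ℝ) ^ (4 / 5 : ℝ) := mul_rpow (by norm_num) (by positivity)
          _ ≤ 2 * (G : ℝ) ^ (4 / 5 : ℝ) := by
              apply mul_le_mul_of_nonneg_right _ (by positivity)
              calc (2 : ℝ) ^ (4 / 5 : ℝ) ≤ 2 ^ (1 : ℝ) :=
                    rpow_le_rpow_of_exponent_le (by norm_num) (by norm_num)
                _ = 2 := rpow_one _
          _ ≤ _ := by linarith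
      have h5 : ((x : ℝ) / (a * b)) ^ (2 / 5 : ℝ) ≤ (x : ℝ) ^ (17 / 35 : ℝ) * (1 / ((a : ℝ) * b)) := by
        rw [div_rpow hx0.le hab0.le, mul_one_div, div_le_div_iff₀ (by positivity) hab0]
        have i1 : ((a : ℝ) * b) = ((a : ℝ) * b) ^ (2 / 5 : ℝ) * ((a : ℝ) * b) ^ (3 / 5 : ℝ) := by
          rw [← rpow_add hab0]; norm_num
        have i2 : ((a : ℝ) * b) ^ (3 / 5 : ℝ) ≤ (x : ℝ) ^ (3 / 35 : ℝ) := by
          have := rpow_le_rpow hab0.le habx (show (0 : ℝ) ≤ 3 / 5 by norm_num)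
          rw [← rpow_mul hx0.le] at this
          norm_num at this
          norm_num
          exact this
        calc (x : ℝ) ^ (2 / 5 : ℝ) * ((a : ℝ) * b) = (x : ℝ) ^ (2 / 5 : ℝ) *
              (((a : ℝ) * b) ^ (2 / 5 : ℝ) * ((a : ℝ) * b) ^ (3 / 5 : ℝ)) := by rw [← i1]
          _ ≤ (x : ℝ) ^ (2 / 5 : ℝ) * (((a : ℝ) * b) ^ (2 / 5 : ℝ) * (x : ℝ) ^ (3 / 35 : ℝ)) := by
              gcongr
          _ = ((x : ℝ) ^ (2 / 5 : ℝ) * (x : ℝ) ^ (3 / 35 : ℝ)) * ((a : ℝ) * b) ^ (2 / 5 : ℝ) := by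
              ring
          _ = _ := by rw [← rpow_add hx0]; norm_num
      have h6 : 0 < C * (x : ℝ) ^ e := by positivity
      have h6' : 0 < C1 * (x : ℝ) ^ e := by positivity
      have h7 : ((F ⟨a, b⟩).card : ℝ) ≤ (F1 ⟨a, b⟩).card + (F2 ⟨a, b⟩).card := by
        exact_mod_cast card_union_le _ _
      calc ((F ⟨a, b⟩).card : ℝ) ≤ _ := h7
        _ ≤ C * (x : ℝ) ^ e * ((G : ℝ) ^ (4 / 5 : ℝ) + 1) + C1 * (x : ℝ) ^ e *
            ((((min (1 + G * a) x : ℕ) : ℝ) / a) ^ (4 / 5 : ℝ) + 1) := add_le_add h2 h2'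
        _ ≤ C * (x : ℝ) ^ e * (((x : ℝ) / (a * b)) ^ (2 / 5 : ℝ) +
            ((x : ℝ) / (a * b)) ^ (2 / 5 : ℝ)) + C1 * (x : ℝ) ^ e *
            (2 * ((x : ℝ) / (a * b)) ^ (2 / 5 : ℝ) + ((x : ℝ) / (a * b)) ^ (2 / 5 : ℝ)) := by
            gcongr
        _ = (2 * (C * (x : ℝ) ^ e) + 3 * (C1 * (x : ℝ) ^ e)) *
            ((x : ℝ) / (a * b)) ^ (2 / 5 : ℝ) := by ring
        _ ≤ (2 * (C * (x : ℝ) ^ e) + 3 * (C1 * (x : ℝ) ^ e)) *
            ((x : ℝ) ^ (17 / 35 : ℝ) * (1 / ((a : ℝ) * b))) := by gcongr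
        _ = _ := by ring)
  have h2 := hsum x hx K (fun k hk => by
    simp only [K, mem_filter, mem_product, mem_Icc] at hk
    exact hk.1)
  calc (A.card : ℝ) ≤ _ := h1
    _ ≤ ((2 * C + 3 * C1) * (x : ℝ) ^ e * (x : ℝ) ^ (17 / 35 : ℝ)) * (C' * (x : ℝ) ^ e) :=
        mul_le_mul_of_nonneg_left h2 (by positivity)
    _ = (2 * C + 3 * C1) * C' * ((x : ℝ) ^ e * (x : ℝ) ^ (17 / 35 : ℝ) * (x : ℝ) ^ e) := by ring
    _ = _ := by
        rw [← rpow_add hx0, ← rpow_add hx0]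
        congr 2
        ring

end Pool.Agent.K1H51.SQ
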