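import Pool.Agent.K1H51.SQ.CasesB

set_option autoImplicit false

/-! Exceptions with a large prime factor: the cases with products of primes with all symbols one. -/

namespace Pool.Agent.K1H51.SQ

open Finset Real Pool.Agent.W57.SW Pool.Agent.K1H88.WS

/-- `n = r p`, all symbols modulo `r` are one, and the exponent of `p` is large -/
theorem caseR (e : ℝ) (he : 0 < e) : ∃ C : ℝ, 0 < C ∧ ∀ x : ℕ, 1 ≤ x → ∀ A : Finset ℕ,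
    (∀ n ∈ A, ∃ r p T : ℕ, n = r * p ∧ n ≤ x ∧ 2 ≤ r ∧ r ∈ QQ x ∧ 2 ≤ p ∧ T ∣ r - 1 ∧ T ∣ p - 1 ∧
      (p : ℝ) ^ (1 / 2 : ℝ) * (x : ℝ) ^ (1 / 40 : ℝ) ≤ T) →
    (A.card : ℝ) ≤ C * (x : ℝ) ^ (19 / 40 + 3 * e : ℝ) := by
  classical
  obtain ⟨C, hC, hdiv⟩ := card_divisors_le e he
  obtain ⟨R, hR, hQ⟩ := QQ_sum e he
  refine ⟨C * (R + 1), by positivity, fun x hx A hA => ?_⟩
  have hx1' : (1 : ℝ) ≤ x := by exact_mod_cast hx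
  have hx0 : (0 : ℝ) < x := by linarith
  let K : Finset ((_ : ℕ) × ℕ) := ((QQ x).filter (fun r => 2 ≤ r)).sigma
    (fun r => (r - 1).divisors)
  let F : ((_ : ℕ) × ℕ) → Finset ℕ := fun k => (Icc 2 x).filter (fun p => k.2 ∣ p - 1 ∧
    k.1 * p ≤ x ∧ (p : ℝ) ^ (1 / 2 : ℝ) * (x : ℝ) ^ (1 / 40 : ℝ) ≤ (k.2 : ℝ))
  have h1 := count_img K A F (fun k s => k.1 * s) (fun k => (k.1 : ℝ) ^ (-(1 / 2 + 2 * e)))
    ((x : ℝ) ^ (19 / 40 + 2 * e : ℝ)) (by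
      intro n hn
      obtain ⟨r, p, T, h1, h2, h3, h4, h5, h6, h7, h8⟩ := hA n hn
      refine ⟨⟨r, T⟩, ?_, p, ?_, h1⟩
      · rw [mem_sigma, mem_filter, Nat.mem_divisors]
        exact ⟨⟨h4, h3⟩, h6, by show r - 1 ≠ 0; omega⟩
      · refine mem_filter.2 ⟨mem_Icc.2 ⟨h5, ?_⟩, h7, by rw [← h1]; exact h2, h8⟩
        calc p ≤ r * p := Nat.le_mul_of_pos_left _ (by omega)
          _ ≤ x := by rw [← h1]; exact h2) (by
      rintro ⟨r, T⟩ hk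
      rw [mem_sigma, mem_filter, Nat.mem_divisors] at hk
      obtain ⟨⟨h1, h2⟩, h3, h4⟩ := hk
      have hr2 : 2 ≤ r := h2
      have hT : 0 < T := Nat.pos_of_dvd_of_pos h3 (Nat.pos_of_ne_zero h4)
      have hT0 : (0 : ℝ) < T := by exact_mod_cast hT
      have hr0 : (0 : ℝ) < r := by exact_mod_cast (by omega : 0 < r)
      have hrx : (r : ℝ) ≤ x := by exact_mod_cast (mem_QQ.1 h1).1.2
      have hxc : (0 : ℝ) < (x : ℝ) ^ (1 / 40 : ℝ) := by positivity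
      have h6 := card_ap1 (S := F ⟨r, T⟩)
        (X := ((x : ℝ) / r) ^ (1 / 2 : ℝ) * (T / (x : ℝ) ^ (1 / 40 : ℝ))) hT (by positivity) (by
        intro p hp
        obtain ⟨a1, a2, a3, a4⟩ := mem_filter.1 hp
        refine ⟨(mem_Icc.1 a1).1, a2, ?_⟩
        have hp0 : (0 : ℝ) < p := by exact_mod_cast (by have := (mem_Icc.1 a1).1; omega : 0 < p)
        have i1 : (p : ℝ) ≤ (x : ℝ) / r := by
          rw [le_div_iff₀ hr0, mul_comm]; exact_mod_cast a3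
        have i2 : (p : ℝ) ^ (1 / 2 : ℝ) ≤ T / (x : ℝ) ^ (1 / 40 : ℝ) := by
          rw [le_div_iff₀ hxc]; exact a4
        have i3 : (p : ℝ) ^ (1 / 2 : ℝ) ≤ ((x : ℝ) / r) ^ (1 / 2 : ℝ) :=
          rpow_le_rpow hp0.le i1 (by norm_num)
        calc (p : ℝ) = (p : ℝ) ^ (1 / 2 : ℝ) * (p : ℝ) ^ (1 / 2 : ℝ) := by
              rw [← rpow_add hp0]; norm_num
          _ ≤ _ := mul_le_mul i3 i2 (by positivity) (by positivity))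
      refine h6.trans ?_
      have h7 : ((x : ℝ) / r) ^ (1 / 2 : ℝ) * (T / (x : ℝ) ^ (1 / 40 : ℝ)) / T =
          ((x : ℝ) / r) ^ (1 / 2 : ℝ) * (x : ℝ) ^ (-(1 / 40) : ℝ) := by
        rw [rpow_neg hx0.le]
        field_simp
      rw [h7, div_rpow hx0.le hr0.le, div_eq_mul_inv, ← rpow_neg hr0.le]
      have h8 : (r : ℝ) ^ (-(1 / 2) : ℝ) ≤ (r : ℝ) ^ (-(1 / 2 + 2 * e)) * (x : ℝ) ^ (2 * e) := by
        calc (r : ℝ) ^ (-(1 / 2) : ℝ) = (r : ℝ) ^ (-(1 / 2 + 2 * e)) * (r : ℝ) ^ (2 * e) := by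
              rw [← rpow_add hr0]; congr 1; ring
          _ ≤ _ := mul_le_mul_of_nonneg_left (rpow_le_rpow hr0.le hrx (by positivity))
              (by positivity)
      calc (x : ℝ) ^ (1 / 2 : ℝ) * (r : ℝ) ^ (-(1 / 2) : ℝ) * (x : ℝ) ^ (-(1 / 40) : ℝ) ≤
          (x : ℝ) ^ (1 / 2 : ℝ) * ((r : ℝ) ^ (-(1 / 2 + 2 * e)) * (x : ℝ) ^ (2 * e)) *
            (x : ℝ) ^ (-(1 / 40) : ℝ) := by gcongr
        _ = ((x : ℝ) ^ (1 / 2 : ℝ) * (x : ℝ) ^ (2 * e) * (x : ℝ) ^ (-(1 / 40) : ℝ)) *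
            (r : ℝ) ^ (-(1 / 2 + 2 * e)) := by ring
        _ = _ := by
            rw [← rpow_add hx0, ← rpow_add hx0]
            congr 2
            ring)
  have h2 : ∑ k ∈ K, (k.1 : ℝ) ^ (-(1 / 2 + 2 * e)) ≤ (C * (x : ℝ) ^ e) * (R + 1) := by
    have i1 : ∑ k ∈ K, (k.1 : ℝ) ^ (-(1 / 2 + 2 * e)) =
        ∑ r ∈ (QQ x).filter (fun r => 2 ≤ r),
        (((r - 1).divisors.card : ℕ) : ℝ) * (r : ℝ) ^ (-(1 / 2 + 2 * e)) := by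
      rw [Finset.sum_sigma]
      refine sum_congr rfl fun r _ => ?_
      show ∑ s ∈ (r - 1).divisors, (r : ℝ) ^ (-(1 / 2 + 2 * e)) = _
      rw [sum_const, nsmul_eq_mul]
    rw [i1]
    have i2 : ∀ r ∈ (QQ x).filter (fun r => 2 ≤ r),
        (((r - 1).divisors.card : ℕ) : ℝ) * (r : ℝ) ^ (-(1 / 2 + 2 * e)) ≤
        (C * (x : ℝ) ^ e) * (r : ℝ) ^ (-(1 / 2 + 2 * e)) := by
      intro r hr
      obtain ⟨hr1, hr2⟩ := mem_filter.1 hr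
      have hr3 := (mem_QQ.1 hr1).1.2
      exact mul_le_mul_of_nonneg_right (hdiv x (r - 1) (by omega) (by omega)) (by positivity)
    refine (sum_le_sum i2).trans ?_
    rw [← mul_sum]
    apply mul_le_mul_of_nonneg_left _ (by positivity)
    refine le_trans (sum_le_sum_of_subset_of_nonneg (filter_subset _ _) fun i _ _ => ?_)
      ((hQ x).trans (by linarith))
    positivity
  calc (A.card : ℝ) ≤ _ := h1
    _ ≤ (x : ℝ) ^ (19 / 40 + 2 * e : ℝ) * ((C * (x : ℝ) ^ e) * (R + 1)) :=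
        mul_le_mul_of_nonneg_left h2 (by positivity)
    _ = C * (R + 1) * ((x : ℝ) ^ (19 / 40 + 2 * e : ℝ) * (x : ℝ) ^ e) := by ring
    _ = _ := by
        rw [← rpow_add hx0]
        congr 2
        ring

/-- `n = p m q`, the primes of `m` and `q` have all symbols one, `q` is large and the exponent of
`p` is small -/
theorem caseT (e : ℝ) (he : 0 < e) (he1 : e ≤ 1 / 1000) : ∃ C : ℝ, 0 < C ∧ ∃ D0 : ℕ,
    ∀ x : ℕ, 1 ≤ x → (D0 : ℝ) ≤ (x : ℝ) ^ (2 / 5 : ℝ) → ∀ A : Finset ℕ,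
    (∀ n ∈ A, ∃ p m q : ℕ, n = p * m * q ∧ n ≤ x ∧ p.Prime ∧ Nz x p ∧
      (Lam x p : ℝ) ≤ (p : ℝ) ^ (1 / 2 : ℝ) * (x : ℝ) ^ (1 / 40 : ℝ) ∧ m ∈ UU x 1 ∧
      q ∈ PP x 1 ∧ (x : ℝ) ^ (2 / 5 : ℝ) ≤ q ∧ Lam x q ∣ p * m - 1) →
    (A.card : ℝ) ≤ C * (x : ℝ) ^ (17 / 35 + 5 * e : ℝ) := by
  classical
  obtain ⟨C, hC, D0, hfib⟩ := prime_fiber_w e he he1
  obtain ⟨R, hR, hU⟩ := UU_sum e he
  obtain ⟨C', hC', hlam⟩ := inv_lam_sum e he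
  refine ⟨C * (R * C'), by positivity, D0, fun x hx hD A hA => ?_⟩
  have hx1' : (1 : ℝ) ≤ x := by exact_mod_cast hx
  have hx0 : (0 : ℝ) < x := by linarith
  obtain ⟨z, hz⟩ : ∃ z : ℝ, z = (x : ℝ) ^ (2 / 5 : ℝ) := ⟨_, rfl⟩
  have hz1 : 1 ≤ z := by rw [hz]; exact one_le_rpow hx1' (by norm_num)
  rw [← hz] at hD
  let P : Finset ℕ := (Icc 1 x).filter (fun p => p.Prime ∧ Nz x p ∧
    (Lam x p : ℝ) ≤ (p : ℝ) ^ (1 / 2 : ℝ) * (x : ℝ) ^ (1 / 40 : ℝ))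
  let K : Finset (ℕ × ℕ) := P ×ˢ UU x 1
  let F : ℕ × ℕ → Finset ℕ := fun k =>
    (Icc 1 x).filter (fun q => q ∈ PP x 1 ∧ D0 ≤ q ∧ k.1 * k.2 * q ≤ x ∧
      Lam x q ∣ k.1 * k.2 - 1 ∧ z ≤ q)
  have h1 := count_img K A F (fun k q => k.1 * k.2 * q)
    (fun k => ((k.1 : ℝ) * k.2) ^ (-(1 / 2 + 2 * e)))
    (C * ((x : ℝ) ^ e * (x : ℝ) ^ (1 / 2 + 2 * e) * z ^ (-(1 / 10 - e)))) (by
      intro n hn
      obtain ⟨p, m, q, h1, h2, h3, h4, h5, h6, h7, h8, h9⟩ := hA n hn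
      have hm := (mem_UU.1 h6).1.1
      have hq := (mem_PP.1 h7).1.1
      rw [← hz] at h8
      have hpx : p ≤ x := by
        calc p ≤ p * m := Nat.le_mul_of_pos_right _ (by omega)
          _ ≤ p * m * q := Nat.le_mul_of_pos_right _ (by omega)
          _ ≤ x := by rw [← h1]; exact h2
      refine ⟨⟨p, m⟩, ?_, ?_⟩
      · exact mem_product.2 ⟨mem_filter.2 ⟨mem_Icc.2 ⟨h3.pos, hpx⟩, h3, h4, h5⟩, h6⟩
      · refine ⟨q, mem_filter.2 ⟨mem_Icc.2 (mem_PP.1 h7).1, h7, ?_, ?_, h9, h8⟩, h1⟩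
        · exact_mod_cast hD.trans h8
        · rw [← h1]; exact h2) (by
      rintro ⟨p, m⟩ hk
      obtain ⟨k1, k2⟩ := mem_product.1 hk
      obtain ⟨k3, k4, k5, k6⟩ := mem_filter.1 k1
      have hm := (mem_UU.1 k2).1.1
      have hD2 : 2 ≤ p * m := by
        have := k4.two_le
        show 2 ≤ p * m
        nlinarith
      have h2 := hfib x (p * m) 1 z hD2 hz1 (F ⟨p, m⟩) (by
          intro q hq
          obtain ⟨_, a1, a2, a3, a4, a5⟩ := mem_filter.1 hq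
          exact ⟨a1, a2, a3, a4, a5⟩)
      push_cast at h2
      exact h2)
  have h2 : ∑ k ∈ K, ((k.1 : ℝ) * k.2) ^ (-(1 / 2 + 2 * e)) ≤
      R * (C' * (x : ℝ) ^ (1 / 40 + e : ℝ)) := by
    have i1 : ∑ k ∈ K, ((k.1 : ℝ) * k.2) ^ (-(1 / 2 + 2 * e)) =
        (∑ p ∈ P, (p : ℝ) ^ (-(1 / 2 + 2 * e))) * ∑ m ∈ UU x 1, (m : ℝ) ^ (-(1 / 2 + 2 * e)) := by
      rw [sum_mul_sum, ← sum_product']
      refine sum_congr rfl fun k _ => ?_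
      exact mul_rpow (Nat.cast_nonneg _) (Nat.cast_nonneg _)
    have i2 : ∑ p ∈ P, (p : ℝ) ^ (-(1 / 2 + 2 * e)) ≤ C' * (x : ℝ) ^ (1 / 40 + e : ℝ) := by
      have j1 : ∀ p ∈ P, (p : ℝ) ^ (-(1 / 2 + 2 * e)) ≤
          (x : ℝ) ^ (1 / 40 : ℝ) * (1 / ((Lam x p : ℕ) : ℝ)) := by
        intro p hp
        obtain ⟨k3, k4, k5, k6⟩ := mem_filter.1 hp
        have hL : (0 : ℝ) < Lam x p := by exact_mod_cast lam_pos k4 k5
        have hp1 : (1 : ℝ) ≤ p := by exact_mod_cast k4.one_lt.le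
        have hp0 : (0 : ℝ) < p := by linarith
        rw [mul_one_div, le_div_iff₀ hL]
        calc (p : ℝ) ^ (-(1 / 2 + 2 * e)) * (Lam x p : ℝ) ≤
            (p : ℝ) ^ (-(1 / 2) : ℝ) * ((p : ℝ) ^ (1 / 2 : ℝ) * (x : ℝ) ^ (1 / 40 : ℝ)) := by
              apply mul_le_mul _ k6 hL.le (by positivity)
              exact rpow_le_rpow_of_exponent_le hp1 (by linarith)
          _ = ((p : ℝ) ^ (-(1 / 2) : ℝ) * (p : ℝ) ^ (1 / 2 : ℝ)) * (x : ℝ) ^ (1 / 40 : ℝ) := by ring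
          _ = _ := by rw [← rpow_add hp0]; norm_num
      refine (sum_le_sum j1).trans ?_
      rw [← mul_sum]
      have j2 := hlam x hx P (fun p hp => by
        obtain ⟨k3, k4, k5, k6⟩ := mem_filter.1 hp
        exact ⟨k4, (mem_Icc.1 k3).2, k5⟩)
      calc (x : ℝ) ^ (1 / 40 : ℝ) * ∑ p ∈ P, 1 / ((Lam x p : ℕ) : ℝ) ≤
          (x : ℝ) ^ (1 / 40 : ℝ) * (C' * (x : ℝ) ^ e) :=
            mul_le_mul_of_nonneg_left j2 (by positivity)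
        _ = C' * ((x : ℝ) ^ (1 / 40 : ℝ) * (x : ℝ) ^ e) := by ring
        _ = _ := by rw [← rpow_add hx0]
    rw [i1, mul_comm]
    exact mul_le_mul (hU x 1) i2 (sum_nonneg fun i _ => by positivity) hR.le
  have h3 : z ^ (-(1 / 10 - e)) ≤ (x : ℝ) ^ (-(1 / 25) + e : ℝ) := by
    rw [hz, ← rpow_mul hx0.le]
    exact rpow_le_rpow_of_exponent_le hx1' (by nlinarith)
  calc (A.card : ℝ) ≤ _ := h1
    _ ≤ (C * ((x : ℝ) ^ e * (x : ℝ) ^ (1 / 2 + 2 * e) * z ^ (-(1 / 10 - e)))) *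
        (R * (C' * (x : ℝ) ^ (1 / 40 + e : ℝ))) := mul_le_mul_of_nonneg_left h2 (by positivity)
    _ ≤ (C * ((x : ℝ) ^ e * (x : ℝ) ^ (1 / 2 + 2 * e) * (x : ℝ) ^ (-(1 / 25) + e : ℝ))) *
        (R * (C' * (x : ℝ) ^ (1 / 40 + e : ℝ))) := by gcongr
    _ = C * (R * C') * ((x : ℝ) ^ e * (x : ℝ) ^ (1 / 2 + 2 * e) * (x : ℝ) ^ (-(1 / 25) + e : ℝ) *
        (x : ℝ) ^ (1 / 40 + e : ℝ)) := by ring
    _ = C * (R * C') * (x : ℝ) ^ (e + (1 / 2 + 2 * e) + (-(1 / 25) + e) + (1 / 40 + e) : ℝ) := by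
        rw [← rpow_add hx0, ← rpow_add hx0, ← rpow_add hx0]
    _ ≤ _ := mul_le_mul_of_nonneg_left
        (rpow_le_rpow_of_exponent_le hx1' (by linarith)) (by positivity)

/-- `n = r m q`, all symbols modulo `r` are one, `q` is large -/
theorem caseU (e : ℝ) (he : 0 < e) (he1 : e ≤ 1 / 1000) : ∃ C : ℝ, 0 < C ∧ ∃ D0 : ℕ,
    ∀ x : ℕ, 1 ≤ x → (D0 : ℝ) ≤ (x : ℝ) ^ (2 / 5 : ℝ) → ∀ A : Finset ℕ,
    (∀ n ∈ A, ∃ r p1 m q : ℕ, n = r * m * q ∧ n ≤ x ∧ 2 ≤ r ∧ r ∈ QQ x ∧ p1 ∣ r ∧ m ∈ UU x p1 ∧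
      q ∈ PP x p1 ∧ (x : ℝ) ^ (2 / 5 : ℝ) ≤ q ∧ Lam x q ∣ r * m - 1) →
    (A.card : ℝ) ≤ C * (x : ℝ) ^ (17 / 35 + 5 * e : ℝ) := by
  classical
  obtain ⟨C, hC, D0, hfib⟩ := prime_fiber_w e he he1
  obtain ⟨C', hC', hsum⟩ := sumA e he
  refine ⟨C * C', by positivity, D0, fun x hx hD A hA => ?_⟩
  have hx1' : (1 : ℝ) ≤ x := by exact_mod_cast hx
  have hx0 : (0 : ℝ) < x := by linarith
  obtain ⟨z, hz⟩ : ∃ z : ℝ, z = (x : ℝ) ^ (2 / 5 : ℝ) := ⟨_, rfl⟩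
  have hz1 : 1 ≤ z := by rw [hz]; exact one_le_rpow hx1' (by norm_num)
  rw [← hz] at hD
  let K : Finset ((_ : ℕ) × (_ : ℕ) × ℕ) := (QQ x).sigma
    (fun r => r.divisors.sigma (fun p1 => UU x p1))
  let F : ((_ : ℕ) × (_ : ℕ) × ℕ) → Finset ℕ := fun k =>
    (Icc 1 x).filter (fun q => q ∈ PP x k.2.1 ∧ D0 ≤ q ∧ k.1 * k.2.2 * q ≤ x ∧
      Lam x q ∣ k.1 * k.2.2 - 1 ∧ z ≤ q ∧ 2 ≤ k.1 * k.2.2)
  have h1 := count_img K A F (fun k q => k.1 * k.2.2 * q)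
    (fun k => ((k.1 : ℝ) * k.2.2) ^ (-(1 / 2 + 2 * e)))
    (C * ((x : ℝ) ^ e * (x : ℝ) ^ (1 / 2 + 2 * e) * z ^ (-(1 / 10 - e)))) (by
      intro n hn
      obtain ⟨r, p1, m, q, h1, h2, h3, h4, h5, h6, h7, h8, h9⟩ := hA n hn
      rw [← hz] at h8
      have hm := (mem_UU.1 h6).1.1
      have hr := (mem_QQ.1 h4).1.1
      refine ⟨⟨r, p1, m⟩, ?_, ?_⟩
      · rw [mem_sigma, mem_sigma, Nat.mem_divisors]
        exact ⟨h4, ⟨h5, Nat.pos_iff_ne_zero.1 hr⟩, h6⟩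
      · refine ⟨q, mem_filter.2 ⟨mem_Icc.2 (mem_PP.1 h7).1, h7, ?_, ?_, h9, h8, ?_⟩, h1⟩
        · exact_mod_cast hD.trans h8
        · rw [← h1]; exact h2
        · show 2 ≤ r * m
          nlinarith) (by
      rintro ⟨r, p1, m⟩ hk
      rcases (F ⟨r, p1, m⟩).eq_empty_or_nonempty with h0 | ⟨q0, hq0⟩
      · rw [h0]; simp; positivity
      · have hD2 : 2 ≤ r * m := (mem_filter.1 hq0).2.2.2.2.2.2
        have h2 := hfib x (r * m) p1 z hD2 hz1 (F ⟨r, p1, m⟩) (by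
          intro q hq
          obtain ⟨_, a1, a2, a3, a4, a5, _⟩ := mem_filter.1 hq
          exact ⟨a1, a2, a3, a4, a5⟩)
        push_cast at h2
        exact h2)
  have h2 : ∑ k ∈ K, ((k.1 : ℝ) * k.2.2) ^ (-(1 / 2 + 2 * e)) ≤ C' * (x : ℝ) ^ e := by
    rw [Finset.sum_sigma]
    refine le_trans (le_of_eq (sum_congr rfl fun r _ => ?_)) (hsum x hx)
    rw [Finset.sum_sigma]
  have h3 : z ^ (-(1 / 10 - e)) ≤ (x : ℝ) ^ (-(1 / 25) + e : ℝ) := by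
    rw [hz, ← rpow_mul hx0.le]
    exact rpow_le_rpow_of_exponent_le hx1' (by nlinarith)
  calc (A.card : ℝ) ≤ _ := h1
    _ ≤ (C * ((x : ℝ) ^ e * (x : ℝ) ^ (1 / 2 + 2 * e) * z ^ (-(1 / 10 - e)))) *
        (C' * (x : ℝ) ^ e) := mul_le_mul_of_nonneg_left h2 (by positivity)
    _ ≤ (C * ((x : ℝ) ^ e * (x : ℝ) ^ (1 / 2 + 2 * e) * (x : ℝ) ^ (-(1 / 25) + e : ℝ))) *
        (C' * (x : ℝ) ^ e) := by gcongr
    _ = C * C' * ((x : ℝ) ^ e * (x : ℝ) ^ (1 / 2 + 2 * e) * (x : ℝ) ^ (-(1 / 25) + e : ℝ) *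
        (x : ℝ) ^ e) := by ring
    _ = C * C' * (x : ℝ) ^ (e + (1 / 2 + 2 * e) + (-(1 / 25) + e) + e : ℝ) := by
        rw [← rpow_add hx0, ← rpow_add hx0, ← rpow_add hx0]
    _ ≤ _ := mul_le_mul_of_nonneg_left
        (rpow_le_rpow_of_exponent_le hx1' (by linarith)) (by positivity)

end Pool.Agent.K1H51.SQ
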