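import Pool.Agent.TH55.SO.Str
import Pool.Agent.R496.SmoothN

set_option autoImplicit false

/-! Individual composite numbers without small witnesses: the prime factors of `n` and of `n - 1`. -/

namespace Pool.Agent.K1H51.SQ

open Finset Real Pool.Agent.W57.SW Pool.Agent.H379R2.W

/-- the lower bound for the exponent of a prime factor -/
noncomputable def FF (A ε : ℝ) (p : ℕ) : ℝ :=
  max (√p * exp (log p / (4 * log (log p)))) ((p : ℝ) ^ (1 - 1 / A - ε))

lemma gcd_eq {p m : ℕ} (hp : 2 ≤ p) (hm : 2 ≤ m) :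
    Nat.gcd (p - 1) (m - 1) = Nat.gcd (p - 1) (p * m - 1) := by
  have h : p * m - 1 = (m - 1) + (p - 1) * m := by
    obtain ⟨p', rfl⟩ : ∃ p', p = p' + 1 := ⟨p - 1, by omega⟩
    obtain ⟨m', rfl⟩ : ∃ m', m = m' + 1 := ⟨m - 1, by omega⟩
    simp only [Nat.add_sub_cancel]
    rw [show (p' + 1) * (m' + 1) = m' + p' * (m' + 1) + 1 by ring]
    omega
  rw [h, Nat.gcd_add_mul_left_right]

theorem key (A ε : ℝ) (hA : 2 ≤ A) (hε : 0 < ε) : ∃ N : ℕ, 3 ≤ N ∧ ∀ n : ℕ, N ≤ n → Bd A n →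
    ∀ p m : ℕ, p.Prime → n = p * m → 2 ≤ m ∧ FF A ε p ≤ (Nat.gcd (p - 1) (n - 1) : ℝ) := by
  obtain ⟨N1, hN13, hN1⟩ := bd_gcd A ε hA hε
  obtain ⟨D1, hD1⟩ := TH55.SO.group1
  have ev : ∀ᶠ x : ℝ in Filter.atTop, (D1 : ℝ) ≤ log x :=
    tendsto_log_atTop.eventually (Filter.eventually_ge_atTop _)
  obtain ⟨x0, hx0⟩ := Filter.eventually_atTop.mp ev
  refine ⟨max N1 ⌈x0⌉₊, hN13.trans (le_max_left _ _), fun n hn hb p m hp hnm => ?_⟩
  have hn3 : 3 ≤ n := hN13.trans ((le_max_left _ _).trans hn)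
  have hLD := hx0 n (Nat.ceil_le.mp ((le_max_right _ _).trans hn))
  have hpn : p ∣ n := ⟨m, hnm⟩
  obtain ⟨h1, hm2⟩ := hN1 n ((le_max_left _ _).trans hn) hb p m hp hnm
  refine ⟨hm2, max_le ?_ ?_⟩
  · have hL1 := one_le_log hn3
    have hbig := bd_prime_large hb hp hpn
    have hsq := sq_le_rpow hA hn3
    have hpD : D1 ≤ p := by
      have : (D1 : ℝ) ≤ p := by nlinarith
      exact_mod_cast this
    have h2 := hD1 n (n - 1) 0 p (by omega) (by omega) hp hpn hpD (by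
      intro b hb1 hb2
      rw [pow_zero, one_mul]
      exact pow_of_passes (hb.2.2 b hb1 (by linarith)))
    rw [pow_zero, one_mul] at h2
    have hp0 : (0 : ℝ) ≤ p := Nat.cast_nonneg _
    have h3 : (√p * exp (log p / (4 * log (log p)))) ^ 2 ≤ (Nat.gcd (p - 1) (n - 1) : ℝ) ^ 2 := by
      rw [mul_pow, sq_sqrt hp0, ← exp_nat_mul]
      refine le_of_eq_of_le ?_ h2
      congr 2
      push_cast
      rcases eq_or_ne (log (log (p : ℝ))) 0 with h0 | h0
      · rw [h0]; simp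
      · field_simp
        ring
    exact le_of_sq_le_sq h3 (by positivity)
  · rw [hnm, ← gcd_eq hp.two_le hm2]
    exact h1

lemma coprime_gcd {n p m q : ℕ} (hn : n = p * m) (hp : p.Prime) (hm : 2 ≤ m) (hq : q.Prime)
    (hqn : q ∣ n - 1) (hlt : n < q ^ 2) : q * Nat.gcd (p - 1) (n - 1) ≤ n - 1 := by
  have hp2 := hp.two_le
  have hn1 : 1 ≤ n - 1 := by
    have : 2 * 2 ≤ p * m := Nat.mul_le_mul hp2 hm
    omega
  have hg : Nat.gcd (p - 1) (n - 1) ∣ n - 1 := Nat.gcd_dvd_right _ _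
  have hco : Nat.Coprime q (Nat.gcd (p - 1) (n - 1)) := by
    rw [hq.coprime_iff_not_dvd]
    intro h
    have h1 : q ∣ p - 1 := h.trans (Nat.gcd_dvd_left _ _)
    have h2 : q ∣ m - 1 := by
      have h3 : q ∣ Nat.gcd (p - 1) (m - 1) := by
        rw [gcd_eq hp2 hm, ← hn]; exact h
      exact h3.trans (Nat.gcd_dvd_right _ _)
    have h3 := Nat.le_of_dvd (by omega) h1
    have h4 := Nat.le_of_dvd (by omega) h2
    have h5 : q * q ≤ p * m := Nat.mul_le_mul (by omega) (by omega)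
    nlinarith
  exact Nat.le_of_dvd (by omega) (hco.mul_dvd_of_dvd_of_dvd hqn hg)

theorem crit (A ε : ℝ) (hA : 2 ≤ A) (hε : 0 < ε) : ∃ c : ℝ, 0 < c ∧ ∃ N : ℕ, ∀ n : ℕ, N ≤ n →
    Bd A n →
    (∀ p : ℕ, p.Prime → p ∣ n → FF A ε p ≤ (Nat.gcd (p - 1) (n - 1) : ℝ)) ∧
    (∀ p : ℕ, p.Prime → p ∣ n → (p : ℝ) * FF A ε p < n) ∧
    (∀ p q : ℕ, p.Prime → p ∣ n → q.Prime → q ∣ n - 1 → n < q ^ 2 → (q : ℝ) * FF A ε p < n) ∧
    (∀ q M : ℕ, q.Prime → n - 1 = M * q →
      exp (c * (log (log n)) ^ 2 / log (log (log n))) < (M : ℝ)) := by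
  obtain ⟨N1, hN13, hN1⟩ := key A ε hA hε
  obtain ⟨c, hc, n0, hsm⟩ := Pool.Agent.R496.smooth_witness 2 (by norm_num)
  have ev1 : ∀ᶠ x : ℝ in Filter.atTop, 1 ≤ log (log x) :=
    (tendsto_log_atTop.comp tendsto_log_atTop).eventually (Filter.eventually_ge_atTop _)
  have ev2 : ∀ᶠ x : ℝ in Filter.atTop, 1 ≤ log (log (log x)) :=
    (tendsto_log_atTop.comp (tendsto_log_atTop.comp tendsto_log_atTop)).eventually
      (Filter.eventually_ge_atTop _)
  have ev3 : ∀ᶠ x : ℝ in Filter.atTop, c / 2 * (log (log x)) ^ 2 ≤ log x / 8 := by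
    have h1 : ∀ᶠ t : ℝ in Filter.atTop, ‖log t ^ 2‖ ≤ 1 / (4 * c) * ‖id t‖ :=
      (isLittleO_pow_log_id_atTop (n := 2)).def (by positivity)
    have h2 := (tendsto_log_atTop.eventually h1).and
      (tendsto_log_atTop.eventually (Filter.eventually_ge_atTop 0))
    filter_upwards [h2] with x hx
    obtain ⟨a1, a2⟩ := hx
    rw [norm_of_nonneg (by positivity), id, norm_of_nonneg a2] at a1
    have := mul_le_mul_of_nonneg_left a1 (by positivity : 0 ≤ c / 2)
    refine this.trans (le_of_eq ?_)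
    field_simp
    ring
  have ev4 : ∀ᶠ x : ℝ in Filter.atTop, 16 ≤ x := Filter.eventually_ge_atTop _
  obtain ⟨x0, hx0⟩ := Filter.eventually_atTop.mp (ev1.and (ev2.and (ev3.and ev4)))
  refine ⟨c / 2, by positivity, max (max N1 n0) ⌈x0⌉₊, fun n hn hb => ?_⟩
  have hnN1 : N1 ≤ n := (le_max_left _ _).trans ((le_max_left _ _).trans hn)
  have hnn0 : n0 ≤ n := (le_max_right _ _).trans ((le_max_left _ _).trans hn)
  have hn3 : 3 ≤ n := hN13.trans hnN1
  obtain ⟨b1, b2, b3, b4⟩ := hx0 n (Nat.ceil_le.mp ((le_max_right _ _).trans hn))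
  have hkey := hN1 n hnN1 hb
  have hn0 : (0 : ℝ) < n := by exact_mod_cast (by omega : 0 < n)
  have part3 : ∀ p q : ℕ, p.Prime → p ∣ n → q.Prime → q ∣ n - 1 → n < q ^ 2 →
      (q : ℝ) * FF A ε p ≤ (n - 1 : ℕ) := by
    intro p q hp hpn hq hqn hlt
    obtain ⟨m, hm⟩ := hpn
    obtain ⟨hm2, hF⟩ := hkey p m hp hm
    have h1 := coprime_gcd hm hp hm2 hq hqn hlt
    calc (q : ℝ) * FF A ε p ≤ (q : ℝ) * (Nat.gcd (p - 1) (n - 1) : ℝ) :=
          mul_le_mul_of_nonneg_left hF (Nat.cast_nonneg _)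
      _ ≤ _ := by exact_mod_cast h1
  have hn1 : ((n - 1 : ℕ) : ℝ) < n := by exact_mod_cast (by omega : n - 1 < n)
  refine ⟨?_, ?_, ?_, ?_⟩
  · intro p hp hpn
    obtain ⟨m, hm⟩ := hpn
    exact (hkey p m hp hm).2
  · intro p hp hpn
    obtain ⟨m, hm⟩ := hpn
    obtain ⟨hm2, hF⟩ := hkey p m hp hm
    have h1 : Nat.gcd (p - 1) (n - 1) < m := by
      rw [hm, ← gcd_eq hp.two_le hm2]
      have := Nat.gcd_le_right (p - 1) (by omega : 0 < m - 1)
      omega
    have hp0 : (0 : ℝ) < p := by exact_mod_cast hp.pos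
    calc (p : ℝ) * FF A ε p ≤ (p : ℝ) * (Nat.gcd (p - 1) (n - 1) : ℝ) :=
          mul_le_mul_of_nonneg_left hF hp0.le
      _ < (p : ℝ) * m := mul_lt_mul_of_pos_left (by exact_mod_cast h1) hp0
      _ = n := by rw [hm]; push_cast; ring
  · intro p q hp hpn hq hqn hlt
    exact (part3 p q hp hpn hq hqn hlt).trans_lt hn1
  · intro q M hq hnM
    by_contra hcon
    push Not at hcon
    have hM1 : 1 ≤ M := by
      rcases Nat.eq_zero_or_pos M with h | h
      · rw [h, zero_mul] at hnM; omega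
      · exact h
    have hM0 : (0 : ℝ) < M := by exact_mod_cast hM1
    have hq0 : (0 : ℝ) < q := by exact_mod_cast hq.pos
    have hL3 : 0 < log (log (log (n : ℝ))) := by linarith
    -- `M ≤ n ^ (1/8)`
    have hlogM : log (M : ℝ) ≤ log n / 8 := by
      have h1 := log_le_log hM0 hcon
      rw [log_exp] at h1
      refine h1.trans (le_trans ?_ b3)
      rw [div_le_iff₀ hL3]
      have : 0 ≤ c / 2 * (log (log (n : ℝ))) ^ 2 := by positivity
      nlinarith
    have hM8 : (M : ℝ) ^ 8 ≤ (n : ℝ) := by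
      rw [← log_le_log_iff (by positivity) hn0, log_pow]
      push_cast
      linarith
    have hlt : n < q ^ 2 := by
      have h1 : (M : ℝ) ^ 4 ≤ (n : ℝ) / 2 := by
        have h2 : ((M : ℝ) ^ 4) ^ 2 ≤ (n : ℝ) := by
          calc ((M : ℝ) ^ 4) ^ 2 = (M : ℝ) ^ 8 := by ring
            _ ≤ (n : ℝ) := hM8
        have h3 : (n : ℝ) ≤ (n / 2) ^ 2 := by nlinarith
        exact le_of_sq_le_sq (h2.trans h3) (by positivity)
      have h4 : ((n - 1 : ℕ) : ℝ) = M * q := by exact_mod_cast hnM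
      have h5 : ((n - 1 : ℕ) : ℝ) = n - 1 := by
        rw [Nat.cast_sub (by omega)]; norm_num
      have hMM : (M : ℝ) ^ 2 ≤ (n : ℝ) / 4 := by
        have h2 : ((M : ℝ) ^ 2) ^ 2 ≤ (n : ℝ) / 2 := by
          calc ((M : ℝ) ^ 2) ^ 2 = (M : ℝ) ^ 4 := by ring
            _ ≤ _ := h1
        have h3 : (n : ℝ) / 2 ≤ (n / 4) ^ 2 := by nlinarith
        exact le_of_sq_le_sq (h2.trans h3) (by positivity)
      have h6 : (n : ℝ) * (M : ℝ) ^ 2 < (q : ℝ) ^ 2 * (M : ℝ) ^ 2 := by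
        have h7 : (q : ℝ) ^ 2 * (M : ℝ) ^ 2 = (n - 1) ^ 2 := by
          rw [← h5, h4]; ring
        rw [h7]
        nlinarith
      have h8 : (n : ℝ) < (q : ℝ) ^ 2 := lt_of_mul_lt_mul_right h6 (by positivity)
      exact_mod_cast h8
    have hsmall : ∀ p : ℕ, p.Prime → p ∣ n → (p : ℝ) ≤ Pool.Agent.R496.smb c n := by
      intro p hp hpn
      have h1 := part3 p q hp hpn hq ⟨M, by rw [hnM, mul_comm]⟩ hlt
      have h2 : FF A ε p ≤ M := by
        have h3 : ((n - 1 : ℕ) : ℝ) = q * M := by rw [hnM]; push_cast; ring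
        rw [h3] at h1
        exact le_of_mul_le_mul_left h1 hq0
      have hbig := bd_prime_large hb hp hpn
      have hsq := sq_le_rpow hA hn3
      have hL1 := one_le_log hn3
      have hpL : log (n : ℝ) ≤ p := by nlinarith
      have hLL : 0 < log (n : ℝ) := by linarith
      have hlp : 1 ≤ log (p : ℝ) := by
        have := log_le_log hLL hpL
        linarith
      have hllp : 0 ≤ log (log (p : ℝ)) := log_nonneg hlp
      have h4 : √(p : ℝ) ≤ M := by
        refine le_trans ?_ h2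
        refine le_trans ?_ (le_max_left _ _)
        exact le_mul_of_one_le_right (sqrt_nonneg _) (one_le_exp (by positivity))
      have h5 : (p : ℝ) ≤ (M : ℝ) ^ 2 := by
        rw [← sqrt_le_left hM0.le]
        exact h4
      refine h5.trans ?_
      calc (M : ℝ) ^ 2 ≤ (exp (c / 2 * (log (log n)) ^ 2 / log (log (log n)))) ^ 2 :=
            pow_le_pow_left₀ hM0.le hcon 2
        _ = exp (c * (log (log n)) ^ 2 / log (log (log n))) := by
            rw [← exp_nat_mul]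
            congr 1
            push_cast
            ring
        _ = _ := rfl
    obtain ⟨b, hb1, hb2, hb3⟩ := hsm n hnn0 hsmall
    apply hb3
    apply hb.2.2 b hb1
    have hsq := sq_le_rpow hA hn3
    rw [rpow_two] at hb2
    have : 0 ≤ (log (n : ℝ)) ^ 2 := by positivity
    linarith

end Pool.Agent.K1H51.SQ
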