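import Pool.Agent.K1H51.SQ.CasesC

set_option autoImplicit false

/-! Exceptions with a large prime factor: assembly. -/

namespace Pool.Agent.K1H51.SQ

open Finset Real Pool.Agent.W57.SW Pool.Agent.K1H88.WS

def G1 (x n : ℕ) : Prop :=
  ∃ p q : ℕ, n = p * q ∧ n ≤ x ∧ 2 ≤ p ∧ q.Prime ∧ Nz x q ∧ Lam x q ∣ p - 1 ∧
      (x : ℝ) ^ (18 / 35 : ℝ) ≤ q

def G2 (x Y : ℕ) (t : ℝ) (n : ℕ) : Prop :=
  ∃ p q : ℕ, n = p * q ∧ n ≤ x ∧ 2 ≤ p ∧ q.Prime ∧ Odd p ∧ Nz x p ∧ Nz x q ∧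
      Lam x q ∣ p - 1 ∧ (Lam x q : ℝ) ≤ t ∧ p ≤ Y ∧ (Sy x p q ∨ Sy x p 1)

def G3 (x n : ℕ) : Prop :=
  ∃ p q L : ℕ, n = p * q ∧ n ≤ x ∧ 2 ≤ p ∧ q.Prime ∧ p ≠ q ∧ Odd p ∧ q ≠ 2 ∧
      (Nz x p ∧ Nz x q) ∧ L ∣ p - 1 ∧ L ∣ q - 1 ∧ (x : ℝ) ^ (3 / 7 : ℝ) ≤ L ∧
      (Sy x p q ∨ Sy x p 1)

def G4 (x n : ℕ) : Prop :=
  ∃ r p T : ℕ, n = r * p ∧ n ≤ x ∧ 2 ≤ r ∧ r ∈ QQ x ∧ 2 ≤ p ∧ T ∣ r - 1 ∧ T ∣ p - 1 ∧
      (p : ℝ) ^ (1 / 2 : ℝ) * (x : ℝ) ^ (1 / 40 : ℝ) ≤ T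

def G5 (x n : ℕ) : Prop :=
  ∃ p m q : ℕ, n = p * m * q ∧ n ≤ x ∧ p.Prime ∧ Nz x p ∧
      (Lam x p : ℝ) ≤ (p : ℝ) ^ (1 / 2 : ℝ) * (x : ℝ) ^ (1 / 40 : ℝ) ∧ m ∈ UU x 1 ∧
      q ∈ PP x 1 ∧ (x : ℝ) ^ (2 / 5 : ℝ) ≤ q ∧ Lam x q ∣ p * m - 1

def G6 (x n : ℕ) : Prop :=
  ∃ r p1 m q : ℕ, n = r * m * q ∧ n ≤ x ∧ 2 ≤ r ∧ r ∈ QQ x ∧ p1 ∣ r ∧ m ∈ UU x p1 ∧
      q ∈ PP x p1 ∧ (x : ℝ) ^ (2 / 5 : ℝ) ≤ q ∧ Lam x q ∣ r * m - 1

/-- `n` has a prime factor that is at least `√n` -/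
def PF (n : ℕ) : Prop := ∃ q : ℕ, q.Prime ∧ q ∣ n ∧ n ≤ q ^ 2

lemma cover1 {x n s q Y : ℕ} (hn : n = s * q) (hnx : n ≤ x) (hs2 : 2 ≤ s) (hq : q.Prime)
    (hne : s ≠ q) (hodd : Odd s) (hq2 : q ≠ 2) (hnzs : Nz x s) (hnzq : Nz x q)
    (hL : Lam x q ∣ s - 1) (hsY : s ≤ Y) (hsy : Sy x s q ∨ Sy x s 1) :
    G2 x Y ((x : ℝ) ^ (3 / 7 : ℝ)) n ∨ G3 x n := by
  rcases le_total (Lam x q : ℝ) ((x : ℝ) ^ (3 / 7 : ℝ)) with h | h
  · exact Or.inl ⟨s, q, hn, hnx, hs2, hq, hodd, hnzs, hnzq, hL, h, hsY, hsy⟩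
  · exact Or.inr ⟨s, q, Lam x q, hn, hnx, hs2, hq, hne, hodd, hq2, ⟨hnzs, hnzq⟩, hL,
      lam_dvd_pred hq hnzq, h, hsy⟩

lemma cover {x n Y : ℕ} (ht : Top x n) (hc : CA x n ∨ CB x n) {q : ℕ} (hq : q.Prime) (hqn : q ∣ n)
    (hY : ∀ s : ℕ, n = s * q → s ≤ Y) (hqx : (x : ℝ) ^ (2 / 5 : ℝ) ≤ q) :
    G1 x n ∨ G2 x Y ((x : ℝ) ^ (3 / 7 : ℝ)) n ∨ G3 x n ∨ G4 x n ∨ G5 x n ∨ G6 x n := by
  obtain ⟨hnx, hn2, hnp, hsq, hodd, hnz, hlam⟩ := ht
  obtain ⟨s, hs⟩ := hqn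
  have hn : n = s * q := by rw [hs, mul_comm]
  have hqn : q ∣ n := ⟨s, hs⟩
  have hsn : s ∣ n := ⟨q, hn⟩
  have hs0 : s ≠ 0 := by rintro rfl; omega
  have hs1 : s ≠ 1 := by
    rintro rfl
    rw [one_mul] at hn
    exact hnp (hn ▸ hq)
  have hs2 : 2 ≤ s := by omega
  have hnzs := nz_dvd hnz hsn
  have hnzq := nz_dvd hnz hqn
  have hodds : Odd s := hodd.of_dvd_nat hsn
  have hoddq : Odd q := hodd.of_dvd_nat hqn
  have hq2 : q ≠ 2 := by rintro rfl; exact absurd hoddq (by decide)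
  have hne : s ≠ q := by
    intro h
    have := hsq q ⟨1, by rw [hn, h, mul_one]⟩
    rw [Nat.isUnit_iff] at this
    exact hq.one_lt.ne' this
  have hLq : Lam x q ∣ s - 1 := lam_dvd_sub hq hnzq (by omega) (by
    have := hlam q hqn
    rwa [hn] at this)
  have hsY := hY s hn
  rcases le_or_gt ((x : ℝ) ^ (18 / 35 : ℝ)) q with hbig | hbig
  · exact Or.inl ⟨s, q, hn, hnx, hs2, hq, hnzq, hLq, hbig⟩
  right
  have hfac : ∀ {m0 : ℕ} {u : ℕ}, u.Prime → u ∣ n → (Sy x u m0 ∨ Sy x u 1) → u ∈ PP x m0 := by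
    intro m0 u hu hun h
    have hou : Odd u := hodd.of_dvd_nat hun
    rw [mem_PP]
    exact ⟨⟨hu.one_lt.le, (Nat.le_of_dvd (by omega) hun).trans hnx⟩, hu,
      by rintro rfl; exact absurd hou (by decide), nz_dvd hnz hun, h⟩
  have hsyPP : (∀ u : ℕ, u.Prime → u ∣ s → (Sy x u q ∨ Sy x u 1)) → (Sy x s q ∨ Sy x s 1) := by
    intro h
    apply sy_of_PP hnzq s hs0
    intro u hu
    obtain ⟨a1, a2, _⟩ := Nat.mem_primeFactors.1 hu
    exact hfac a1 (a2.trans hsn) (h u a1 a2)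
  have hcov : (Sy x s q ∨ Sy x s 1) → _ := fun h =>
    cover1 hn hnx hs2 hq hne hodds hq2 hnzs hnzq hLq hsY h
  rcases hc with ⟨p1, p2, m, h1, h2, h3, h4, h5, h6⟩ | ⟨p0, m, h1, h2, h3⟩
  · -- `n = p1 p2 m`
    have hp1n : p1 ∣ n := ⟨p2 * m, by rw [h1, mul_assoc]⟩
    have hp2n : p2 ∣ n := ⟨p1 * m, by rw [h1]; ring⟩
    have hmn : m ∣ n := ⟨p1 * p2, by rw [h1]; ring⟩
    have hm0 : m ≠ 0 := by rintro rfl; rw [mul_zero] at h1; omega
    -- the symbols of every prime factor of `n`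
    have hall : ∀ u : ℕ, u.Prime → u ∣ n → (Sy x u p1 ∨ Sy x u 1) := by
      intro u hu hun
      rw [h1] at hun
      rcases (Nat.Prime.dvd_mul hu).1 hun with h | h
      · rcases (Nat.Prime.dvd_mul hu).1 h with h | h
        · rw [(Nat.prime_dvd_prime_iff_eq hu h2).1 h]; exact Or.inl (Sy.refl x p1)
        · rw [(Nat.prime_dvd_prime_iff_eq hu h3).1 h]; exact Or.inl h5.symm
      · exact (mem_PP.1 (h6 (Nat.mem_primeFactors.2 ⟨hu, h, hm0⟩))).2.2.2.2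
    by_cases hqp : Sy x q p1
    · have := hcov (hsyPP fun u hu hus => by
        rcases hall u hu (hus.trans hsn) with h | h
        · exact Or.inl (h.trans hqp.symm)
        · exact Or.inr h)
      tauto
    · -- `q` divides `m`
      have hqm : q ∣ m := by
        have hun := hqn
        rw [h1] at hun
        rcases (Nat.Prime.dvd_mul hq).1 hun with h | h
        · exfalso
          rcases (Nat.Prime.dvd_mul hq).1 h with h | h
          · rw [(Nat.prime_dvd_prime_iff_eq hq h2).1 h] at hqp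
            exact hqp (Sy.refl x p1)
          · rw [(Nat.prime_dvd_prime_iff_eq hq h3).1 h] at hqp
            exact hqp h5.symm
        · exact h
      obtain ⟨m', hm'⟩ := hqm
      have hr : p1 * p2 ∈ QQ x := by
        have hd : p1 * p2 ∣ n := ⟨m, h1⟩
        exact mul_mem_QQ h2 h3 h4 h5 ((Nat.le_of_dvd (by omega) hd).trans hnx)
          (hodd.of_dvd_nat hd) (nz_dvd hnz hd)
      have hs' : s = p1 * p2 * m' := by
        have : s * q = (p1 * p2 * m') * q := by rw [← hn, h1, hm']; ring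
        exact Nat.eq_of_mul_eq_mul_right hq.pos this
      right; right; right; right
      refine ⟨p1 * p2, p1, m', q, by rw [hn, hs'], hnx, ?_, hr, ⟨p2, rfl⟩, ?_,
        hfac hq hqn (hall q hq hqn), hqx, by rw [← hs']; exact hLq⟩
      · have := h2.two_le
        have := h3.two_le
        nlinarith
      · exact mem_UU_of hnx (by omega) hsq hmn h6 ⟨q, by rw [hm', mul_comm]⟩
  · -- `n = p0 m`
    have hp0n : p0 ∣ n := ⟨m, h1⟩
    have hmn : m ∣ n := ⟨p0, by rw [h1, mul_comm]⟩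
    have hm0 : m ≠ 0 := by rintro rfl; rw [mul_zero] at h1; omega
    have hm1 : ∀ u : ℕ, u.Prime → u ∣ m → Sy x u 1 := by
      intro u hu hum
      have := (mem_PP.1 (h3 (Nat.mem_primeFactors.2 ⟨hu, hum, hm0⟩))).2.2.2.2
      tauto
    by_cases hqp : q = p0
    · have hsm : s = m := by
        have : s * q = m * q := by rw [← hn, h1, hqp, mul_comm]
        exact Nat.eq_of_mul_eq_mul_right hq.pos this
      have := hcov (hsyPP fun u hu hus => Or.inr (hm1 u hu (hsm ▸ hus)))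
      tauto
    · have hqm : q ∣ m := by
        have hun := hqn
        rw [h1] at hun
        rcases (Nat.Prime.dvd_mul hq).1 hun with h | h
        · exact absurd ((Nat.prime_dvd_prime_iff_eq hq h2).1 h) hqp
        · exact h
      obtain ⟨m', hm'⟩ := hqm
      have hs' : s = p0 * m' := by
        have : s * q = (p0 * m') * q := by rw [← hn, h1, hm']; ring
        exact Nat.eq_of_mul_eq_mul_right hq.pos this
      have hm2 : 2 ≤ m := by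
        have := hq.two_le
        have h0 : m' ≠ 0 := by rintro rfl; rw [mul_zero] at hm'; exact hm0 hm'
        rw [hm']
        calc 2 ≤ q * 1 := by omega
          _ ≤ q * m' := Nat.mul_le_mul_left _ (by omega)
      have hmQ : m ∈ QQ x := by
        rw [mem_QQ]
        refine ⟨⟨by omega, (Nat.le_of_dvd (by omega) hmn).trans hnx⟩, hodd.of_dvd_nat hmn,
          hsq.squarefree_of_dvd hmn, nz_dvd hnz hmn, ?_⟩
        have h1' : Nz x 1 := fun ℓ hℓ hd => (mem_Vs.1 hℓ).1.one_lt.ne' (Nat.dvd_one.1 hd)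
        have := sy_of_PP h1' m hm0 (fun u hu => by
          obtain ⟨a1, a2, _⟩ := Nat.mem_primeFactors.1 hu
          exact hfac a1 (a2.trans hmn) (Or.inr (hm1 u a1 a2)))
        tauto
      have hnz0 := nz_dvd hnz hp0n
      have hL0 : Lam x p0 ∣ m - 1 := lam_dvd_sub h2 hnz0 (by omega) (by
        have := hlam p0 hp0n
        rwa [h1, mul_comm] at this)
      right; right
      rcases le_total (Lam x p0 : ℝ) ((p0 : ℝ) ^ (1 / 2 : ℝ) * (x : ℝ) ^ (1 / 40 : ℝ)) with h | h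
      · right; left
        refine ⟨p0, m', q, by rw [hn, hs'], hnx, h2, hnz0, h, ?_,
          hfac hq hqn (Or.inr (hm1 q hq ⟨m', hm'⟩)), hqx, by rw [← hs']; exact hLq⟩
        exact mem_UU_of hnx (by omega) hsq hmn h3 ⟨q, by rw [hm', mul_comm]⟩
      · left
        exact ⟨m, p0, Lam x p0, by rw [h1, mul_comm], hnx, hm2, hmQ, h2.two_le, hL0,
          lam_dvd_pred h2 hnz0, h⟩

open Classical in
theorem top_count (e : ℝ) (he : 0 < e) (he1 : e ≤ 1 / 1000) : ∃ K : ℝ, 0 < K ∧ ∀ x : ℕ, 1 ≤ x →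
    (((Icc 1 x).filter (fun n => (Bd 2 n ∧ PF n) ∧ x < 2 * n)).card : ℝ) ≤
      K * (x : ℝ) ^ (17 / 35 + 5 * e : ℝ) := by
  obtain ⟨C1, hC1, h1⟩ := caseA e he
  obtain ⟨C2, hC2, h2⟩ := caseF e he (by linarith)
  obtain ⟨C3, hC3, h3⟩ := caseQ e he (by linarith)
  obtain ⟨C4, hC4, h4⟩ := caseR e he
  obtain ⟨C5, hC5, D5, h5⟩ := caseT e he he1
  obtain ⟨C6, hC6, D6, h6⟩ := caseU e he he1
  obtain ⟨N0, hN0⟩ := top_of_bd
  have hev1 : ∀ᶠ x : ℝ in Filter.atTop, 2 * (N0 : ℝ) + 1 ≤ x := Filter.eventually_ge_atTop _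
  have hev2 : ∀ᶠ x : ℝ in Filter.atTop, 4 ≤ log x :=
    tendsto_log_atTop.eventually (Filter.eventually_ge_atTop _)
  have hev3 : ∀ᶠ x : ℝ in Filter.atTop, (D5 : ℝ) + D6 ≤ x ^ (2 / 5 : ℝ) :=
    (tendsto_rpow_atTop (by norm_num)).eventually (Filter.eventually_ge_atTop _)
  have hev4 : ∀ᶠ x : ℝ in Filter.atTop, 2 ≤ x ^ (2 * e) :=
    (tendsto_rpow_atTop (by positivity)).eventually (Filter.eventually_ge_atTop _)
  have hev5 : ∀ᶠ x : ℝ in Filter.atTop, 2 ≤ x ^ (1 / 5 : ℝ) :=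
    (tendsto_rpow_atTop (by norm_num)).eventually (Filter.eventually_ge_atTop _)
  obtain ⟨x0, hx0⟩ := Filter.eventually_atTop.mp
    (hev1.and (hev2.and (hev3.and (hev4.and hev5))))
  obtain ⟨X0, hX0⟩ := exists_nat_ge x0
  refine ⟨(X0 : ℝ) + (C1 + 2 * C2 + C3 + C4 + C5 + C6), by positivity, ?_⟩
  intro x hx
  have hx1 : (1 : ℝ) ≤ x := by exact_mod_cast hx
  have hxpos : (0 : ℝ) < x := by linarith
  obtain ⟨W, hW⟩ : ∃ W : ℝ, W = (x : ℝ) ^ (17 / 35 + 5 * e : ℝ) := ⟨_, rfl⟩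
  have hW1 : 1 ≤ W := by rw [hW]; exact one_le_rpow hx1 (by positivity)
  obtain ⟨A, hA⟩ : ∃ A, A = (Icc 1 x).filter (fun n => (Bd 2 n ∧ PF n) ∧ x < 2 * n) := ⟨_, rfl⟩
  rw [← hA, ← hW]
  have hX0' : (0 : ℝ) ≤ X0 := Nat.cast_nonneg X0
  rcases lt_or_ge x X0 with hsmall | hlarge
  · have i1 : A.card ≤ x := by
      rw [hA]
      refine (card_filter_le _ _).trans ?_
      rw [Nat.card_Icc]; omega
    have i2 : (A.card : ℝ) ≤ X0 := by exact_mod_cast i1.trans hsmall.le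
    calc (A.card : ℝ) ≤ ((X0 : ℝ) + (C1 + 2 * C2 + C3 + C4 + C5 + C6)) * 1 := by
          linarith
      _ ≤ _ := mul_le_mul_of_nonneg_left hW1 (by positivity)
  · obtain ⟨c1, c2, c3, c4, c5⟩ := hx0 x (hX0.trans (by exact_mod_cast hlarge))
    obtain ⟨Y, hY⟩ : ∃ Y : ℕ, Y = ⌊(x : ℝ) ^ (1 / 2 + e : ℝ)⌋₊ := ⟨_, rfl⟩
    have hY1 : (Y : ℝ) ≤ (x : ℝ) ^ (1 / 2 + e : ℝ) := by rw [hY]; exact Nat.floor_le (by positivity)
    have hYx : Y ≤ x := by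
      have : (Y : ℝ) ≤ x := hY1.trans (by
        calc (x : ℝ) ^ (1 / 2 + e : ℝ) ≤ (x : ℝ) ^ (1 : ℝ) :=
              rpow_le_rpow_of_exponent_le hx1 (by linarith)
          _ = x := rpow_one _)
      exact_mod_cast this
    have hD5 : (D5 : ℝ) ≤ (x : ℝ) ^ (2 / 5 : ℝ) := by
      have : (0 : ℝ) ≤ D6 := Nat.cast_nonneg _
      linarith
    have hD6 : (D6 : ℝ) ≤ (x : ℝ) ^ (2 / 5 : ℝ) := by
      have : (0 : ℝ) ≤ D5 := Nat.cast_nonneg _
      linarith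
    have hcov : ∀ n ∈ A, G1 x n ∨ G2 x Y ((x : ℝ) ^ (3 / 7 : ℝ)) n ∨ G3 x n ∨ G4 x n ∨ G5 x n ∨
        G6 x n := by
      intro n hn
      rw [hA, mem_filter, mem_Icc] at hn
      obtain ⟨⟨hn1, hnx⟩, ⟨hb, ⟨q, hq, hqn, hqsq⟩⟩, hxn⟩ := hn
      have hxn' : (x : ℝ) < 2 * n := by exact_mod_cast hxn
      have hn0 : (0 : ℝ) < n := by linarith
      have hNn : N0 ≤ n := by
        have : (N0 : ℝ) ≤ n := by linarith
        exact_mod_cast this
      have hlogn : log x - 1 ≤ log n := by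
        have i1 := log_le_log hxpos hxn'.le
        rw [log_mul (by norm_num) hn0.ne'] at i1
        have := log_two_lt_d9
        linarith
      have hlog : (log (x : ℝ)) ^ (2 : ℝ) ≤ 2 * (log n) ^ (2 : ℝ) := by
        rw [rpow_two, rpow_two]
        nlinarith
      have hL4 : 2 ≤ (log (x : ℝ)) ^ (2 : ℝ) := by
        rw [rpow_two]
        nlinarith
      obtain ⟨ht, hc⟩ := hN0 x n hNn hnx hlog hL4 hb
      have hq0 : (0 : ℝ) < q := by exact_mod_cast hq.pos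
      have hqx : (x : ℝ) ≤ 2 * (q : ℝ) ^ 2 := by
        have : (n : ℝ) ≤ (q : ℝ) ^ 2 := by exact_mod_cast hqsq
        linarith
      refine cover ht hc hq hqn ?_ ?_
      · intro s hs
        rw [hY]
        apply Nat.le_floor
        have i1 : (s : ℝ) * q ≤ x := by
          have : s * q ≤ x := by rw [← hs]; exact hnx
          exact_mod_cast this
        have i2 : (s : ℝ) ^ 2 * (q : ℝ) ^ 2 ≤ (2 * x) * (q : ℝ) ^ 2 := by
          have j1 : ((s : ℝ) * q) ^ 2 ≤ (x : ℝ) ^ 2 := pow_le_pow_left₀ (by positivity) i1 2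
          nlinarith
        have i3 : (s : ℝ) ^ 2 ≤ 2 * x := le_of_mul_le_mul_right i2 (by positivity)
        have i4 : (s : ℝ) ^ 2 ≤ ((x : ℝ) ^ (1 / 2 + e : ℝ)) ^ 2 := by
          have j1 : ((x : ℝ) ^ (1 / 2 + e : ℝ)) ^ 2 = (x : ℝ) ^ (2 * e) * x := by
            rw [← rpow_natCast, ← rpow_mul hxpos.le]
            nth_rewrite 3 [← rpow_one (x : ℝ)]
            rw [← rpow_add hxpos]
            congr 1
            push_cast
            ring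
          rw [j1]
          nlinarith
        exact le_of_sq_le_sq i4 (by positivity)
      · have i1 : ((x : ℝ) ^ (2 / 5 : ℝ)) ^ 2 ≤ (q : ℝ) ^ 2 := by
          have j1 : ((x : ℝ) ^ (2 / 5 : ℝ)) ^ 2 * (x : ℝ) ^ (1 / 5 : ℝ) = x := by
            rw [← rpow_natCast, ← rpow_mul hxpos.le, ← rpow_add hxpos]
            norm_num
          have j2 : 0 < ((x : ℝ) ^ (2 / 5 : ℝ)) ^ 2 := by positivity
          nlinarith
        exact le_of_sq_le_sq i1 hq0.le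
    have b1 := h1 x hx (A.filter (G1 x)) fun n hn => (mem_filter.1 hn).2
    have b2 := h2 x hx Y ((x : ℝ) ^ (3 / 7 : ℝ)) hYx (by positivity)
      (A.filter (G2 x Y ((x : ℝ) ^ (3 / 7 : ℝ)))) fun n hn => (mem_filter.1 hn).2
    have b3 := h3 x hx (A.filter (G3 x)) fun n hn => (mem_filter.1 hn).2
    have b4 := h4 x hx (A.filter (G4 x)) fun n hn => (mem_filter.1 hn).2
    have b5 := h5 x hx hD5 (A.filter (G5 x)) fun n hn => (mem_filter.1 hn).2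
    have b6 := h6 x hx hD6 (A.filter (G6 x)) fun n hn => (mem_filter.1 hn).2
    have mono : ∀ a : ℝ, a ≤ 17 / 35 + 5 * e → (x : ℝ) ^ a ≤ W := by
      intro a ha
      rw [hW]
      exact rpow_le_rpow_of_exponent_le hx1 ha
    have d1 : C1 * (x : ℝ) ^ (17 / 35 + e : ℝ) ≤ C1 * W :=
      mul_le_mul_of_nonneg_left (mono _ (by linarith)) hC1.le
    have d2 : C2 * (x : ℝ) ^ (2 * e) * ((Y : ℝ) ^ (4 / 5 : ℝ) *
        ((x : ℝ) ^ (3 / 7 : ℝ)) ^ (1 / 5 : ℝ) + (x : ℝ) ^ (3 / 7 : ℝ)) ≤ 2 * C2 * W := by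
      have i2 : (Y : ℝ) ^ (4 / 5 : ℝ) ≤ (x : ℝ) ^ (2 / 5 + e : ℝ) := by
        have := rpow_le_rpow (Nat.cast_nonneg _) hY1 (show (0 : ℝ) ≤ 4 / 5 by norm_num)
        rw [← rpow_mul hxpos.le] at this
        exact this.trans (rpow_le_rpow_of_exponent_le hx1 (by linarith))
      have i3 : ((x : ℝ) ^ (3 / 7 : ℝ)) ^ (1 / 5 : ℝ) = (x : ℝ) ^ (3 / 35 : ℝ) := by
        rw [← rpow_mul hxpos.le]; norm_num
      have i4 : (x : ℝ) ^ (3 / 7 : ℝ) ≤ (x : ℝ) ^ (17 / 35 + e : ℝ) :=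
        rpow_le_rpow_of_exponent_le hx1 (by linarith)
      have i5 : (x : ℝ) ^ (2 / 5 + e : ℝ) * (x : ℝ) ^ (3 / 35 : ℝ) = (x : ℝ) ^ (17 / 35 + e : ℝ) := by
        rw [← rpow_add hxpos]; congr 1; ring
      rw [i3]
      calc _ ≤ C2 * (x : ℝ) ^ (2 * e) * ((x : ℝ) ^ (2 / 5 + e : ℝ) * (x : ℝ) ^ (3 / 35 : ℝ) +
            (x : ℝ) ^ (17 / 35 + e : ℝ)) := by gcongr
        _ = 2 * C2 * ((x : ℝ) ^ (17 / 35 + e : ℝ) * (x : ℝ) ^ (2 * e)) := by rw [i5]; ring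
        _ = 2 * C2 * (x : ℝ) ^ (17 / 35 + e + 2 * e : ℝ) := by rw [← rpow_add hxpos]
        _ ≤ _ := mul_le_mul_of_nonneg_left (mono _ (by linarith)) (by positivity)
    have d3 : C3 * (x : ℝ) ^ (17 / 35 + 2 * e : ℝ) ≤ C3 * W :=
      mul_le_mul_of_nonneg_left (mono _ (by linarith)) hC3.le
    have d4 : C4 * (x : ℝ) ^ (19 / 40 + 3 * e : ℝ) ≤ C4 * W :=
      mul_le_mul_of_nonneg_left (mono _ (by linarith)) hC4.le
    rw [← hW] at b5 b6
    have hcard : (A.card : ℝ) ≤ (A.filter (G1 x)).card +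
        (A.filter (G2 x Y ((x : ℝ) ^ (3 / 7 : ℝ)))).card +
        (A.filter (G3 x)).card + (A.filter (G4 x)).card + (A.filter (G5 x)).card +
        (A.filter (G6 x)).card := by
      have j : A ⊆ A.filter (G1 x) ∪ (A.filter (G2 x Y ((x : ℝ) ^ (3 / 7 : ℝ))) ∪
          (A.filter (G3 x) ∪ (A.filter (G4 x) ∪ (A.filter (G5 x) ∪ A.filter (G6 x))))) := by
        intro n hn
        have := hcov n hn
        simp only [mem_union, mem_filter]
        tauto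
      have i0 := card_le_card j
      have u1 := card_union_le (A.filter (G5 x)) (A.filter (G6 x))
      have u2 := card_union_le (A.filter (G4 x)) (A.filter (G5 x) ∪ A.filter (G6 x))
      have u3 := card_union_le (A.filter (G3 x)) (A.filter (G4 x) ∪ (A.filter (G5 x) ∪
        A.filter (G6 x)))
      have u4 := card_union_le (A.filter (G2 x Y ((x : ℝ) ^ (3 / 7 : ℝ)))) (A.filter (G3 x) ∪
        (A.filter (G4 x) ∪ (A.filter (G5 x) ∪ A.filter (G6 x))))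
      have u5 := card_union_le (A.filter (G1 x)) (A.filter (G2 x Y ((x : ℝ) ^ (3 / 7 : ℝ))) ∪
        (A.filter (G3 x) ∪ (A.filter (G4 x) ∪ (A.filter (G5 x) ∪ A.filter (G6 x)))))
      have : A.card ≤ (A.filter (G1 x)).card +
        (A.filter (G2 x Y ((x : ℝ) ^ (3 / 7 : ℝ)))).card +
        (A.filter (G3 x)).card + (A.filter (G4 x)).card + (A.filter (G5 x)).card +
        (A.filter (G6 x)).card := by omega
      exact_mod_cast this
    have hX0W : 0 ≤ (X0 : ℝ) * W := by positivity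
    calc (A.card : ℝ) ≤ _ := hcard
      _ ≤ C1 * W + 2 * C2 * W + C3 * W + C4 * W + C5 * W + C6 * W := by linarith
      _ ≤ _ := by linarith

open Classical in
/-- The number of exceptions with a prime factor at least `√n`. -/
theorem sqrt_count (ε : ℝ) (hε : 0 < ε) : ∃ K : ℝ, 0 < K ∧ ∀ x : ℕ,
    (((Icc 1 x).filter (fun n => Bd 2 n ∧ PF n)).card : ℝ) ≤ K * (x : ℝ) ^ (17 / 35 + ε : ℝ) := by
  obtain ⟨e, he, he1, hee⟩ : ∃ e : ℝ, 0 < e ∧ e ≤ 1 / 1000 ∧ 5 * e ≤ ε :=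
    ⟨min (ε / 5) (1 / 1000), by positivity, min_le_right _ _, by
      have := min_le_left (ε / 5) (1 / 1000); linarith⟩
  obtain ⟨K, hK, htop⟩ := top_count e he he1
  obtain ⟨E, hE⟩ : ∃ E : ℝ, E = 17 / 35 + ε := ⟨_, rfl⟩
  have hE0 : 0 < E := by rw [hE]; positivity
  have h2E : (2 : ℝ) ^ (-E) < 1 := rpow_lt_one_of_one_lt_of_neg (by norm_num) (by linarith)
  have hd : 0 < 1 - (2 : ℝ) ^ (-E) := by linarith
  rw [← hE]
  refine ⟨K / (1 - (2 : ℝ) ^ (-E)), by positivity, fun x => ?_⟩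
  induction x using Nat.strong_induction_on with
  | _ x ih =>
    rcases Nat.eq_zero_or_pos x with h0 | h0
    · subst h0
      simp
      positivity
    · have hx1 : (1 : ℝ) ≤ x := by exact_mod_cast h0
      have hxpos : (0 : ℝ) < x := by linarith
      have hcov : (Icc 1 x).filter (fun n => Bd 2 n ∧ PF n) ⊆
          (Icc 1 (x / 2)).filter (fun n => Bd 2 n ∧ PF n) ∪
          (Icc 1 x).filter (fun n => (Bd 2 n ∧ PF n) ∧ x < 2 * n) := by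
        intro n hn
        rw [mem_filter, mem_Icc] at hn
        obtain ⟨⟨hn1, hnx⟩, hb⟩ := hn
        rw [mem_union, mem_filter, mem_filter, mem_Icc, mem_Icc]
        rcases lt_or_ge x (2 * n) with h | h
        · exact Or.inr ⟨⟨hn1, hnx⟩, hb, h⟩
        · exact Or.inl ⟨⟨hn1, by omega⟩, hb⟩
      have h1 := (card_le_card hcov).trans (card_union_le _ _)
      have h2 : (((Icc 1 x).filter (fun n => Bd 2 n ∧ PF n)).card : ℝ) ≤
          (((Icc 1 (x / 2)).filter (fun n => Bd 2 n ∧ PF n)).card : ℝ) +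
          (((Icc 1 x).filter (fun n => (Bd 2 n ∧ PF n) ∧ x < 2 * n)).card : ℝ) := by
        exact_mod_cast h1
      have h3 := ih (x / 2) (by omega)
      have h4 := htop x h0
      have h5 : K * (x : ℝ) ^ (17 / 35 + 5 * e : ℝ) ≤ K * (x : ℝ) ^ E :=
        mul_le_mul_of_nonneg_left (rpow_le_rpow_of_exponent_le hx1 (by linarith)) hK.le
      have h6 : (((x / 2 : ℕ) : ℕ) : ℝ) ^ E ≤ (x : ℝ) ^ E * (2 : ℝ) ^ (-E) := by
        have i1 : (((x / 2 : ℕ) : ℕ) : ℝ) ≤ (x : ℝ) / 2 := Nat.cast_div_le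
        calc (((x / 2 : ℕ) : ℕ) : ℝ) ^ E ≤ ((x : ℝ) / 2) ^ E :=
              rpow_le_rpow (Nat.cast_nonneg _) i1 hE0.le
          _ = _ := by rw [div_rpow hxpos.le (by norm_num), rpow_neg (by norm_num), div_eq_mul_inv]
      have h7 : K / (1 - (2 : ℝ) ^ (-E)) * (((x / 2 : ℕ) : ℕ) : ℝ) ^ E ≤
          K / (1 - (2 : ℝ) ^ (-E)) * ((x : ℝ) ^ E * (2 : ℝ) ^ (-E)) :=
        mul_le_mul_of_nonneg_left h6 (by positivity)
      have h8 : K / (1 - (2 : ℝ) ^ (-E)) * ((x : ℝ) ^ E * (2 : ℝ) ^ (-E)) + K * (x : ℝ) ^ E =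
          K / (1 - (2 : ℝ) ^ (-E)) * (x : ℝ) ^ E := by
        field_simp
        ring
      linarith

end Pool.Agent.K1H51.SQ
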